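import Mathlib

set_option autoImplicit false

/-!
Generic rigidity of graphs in `ℝ^d`: definitions.
-/

namespace Pool.Agent.H283R2.DR

open Matrix

variable {V : Type*}

/-- `q` is an infinitesimal motion of the framework `(G, p)` in `ℝ^d`: it preserves the lengths of
all edges to first order. -/
def IsMotion {d : ℕ} (G : SimpleGraph V) (p q : V → Fin d → ℝ) : Prop :=
  ∀ u v, G.Adj u v → (p u - p v) ⬝ᵥ (q u - q v) = 0

/-- The framework `(G, p)` in `ℝ^d` is infinitesimally rigid: each of its infinitesimal motions is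
trivial, i.e. of the form `v ↦ A p(v) + b` with a skew-symmetric matrix `A` and a vector `b`. -/
def InfRigid {d : ℕ} (G : SimpleGraph V) (p : V → Fin d → ℝ) : Prop :=
  ∀ q : V → Fin d → ℝ, IsMotion G p q →
    ∃ (A : Matrix (Fin d) (Fin d) ℝ) (b : Fin d → ℝ), Aᵀ = -A ∧ ∀ v, q v = A *ᵥ p v + b

/-- `G` is generically rigid in `ℝ^d`: some (equivalently, almost every) realization of `G` in
`ℝ^d` is infinitesimally rigid. -/
def GenRigid (d : ℕ) (G : SimpleGraph V) : Prop := ∃ p : V → Fin d → ℝ, InfRigid G p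

/-- The sub-framework on the vertex set `U` is infinitesimally rigid. -/
def RigidOn {d : ℕ} (G : SimpleGraph V) (U : Set V) (p : V → Fin d → ℝ) : Prop :=
  ∀ q : V → Fin d → ℝ, (∀ u ∈ U, ∀ v ∈ U, G.Adj u v → (p u - p v) ⬝ᵥ (q u - q v) = 0) →
    ∃ (A : Matrix (Fin d) (Fin d) ℝ) (b : Fin d → ℝ), Aᵀ = -A ∧ ∀ v ∈ U, q v = A *ᵥ p v + b

/-- A placement that is as rigid as possible for all graphs on all vertex subsets, and in general
position. -/
structure Gen {d : ℕ} (p : V → Fin d → ℝ) : Prop where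
  rigid : ∀ (H : SimpleGraph V) (U : Set V) (p' : V → Fin d → ℝ), RigidOn H U p' → RigidOn H U p
  pos : ∀ (n : ℕ) (x : Fin n → V), n ≤ d + 1 → Function.Injective x →
    AffineIndependent ℝ (fun i => p (x i))

theorem rigidOn_iff_induce {d : ℕ} (G : SimpleGraph V) (U : Set V) (p : V → Fin d → ℝ) :
    RigidOn G U p ↔ InfRigid (G.induce U) (fun x : U => p x) := by
  classical
  constructor
  · intro h q hq
    have h1 := h (fun v => if hv : v ∈ U then q ⟨v, hv⟩ else 0) (by
      intro u hu v hv huv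
      have := hq ⟨u, hu⟩ ⟨v, hv⟩ (by simpa using huv)
      simpa [hu, hv] using this)
    obtain ⟨A, b, hA, hb⟩ := h1
    refine ⟨A, b, hA, ?_⟩
    intro v
    have := hb v v.2
    simpa using this
  · intro h q hq
    obtain ⟨A, b, hA, hb⟩ := h (fun x => q x) (by
      intro u v huv
      exact hq u u.2 v v.2 (by simpa using huv))
    exact ⟨A, b, hA, fun v hv => hb ⟨v, hv⟩⟩

theorem RigidOn.mono_graph {d : ℕ} {G H : SimpleGraph V} {U : Set V} {p : V → Fin d → ℝ}
    (h : RigidOn H U p) (hHG : ∀ u ∈ U, ∀ v ∈ U, H.Adj u v → G.Adj u v) : RigidOn G U p := by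
  intro q hq
  exact h q (fun u hu v hv huv => hq u hu v hv (hHG u hu v hv huv))

theorem genRigid_induce_iff {d : ℕ} (G : SimpleGraph V) (U : Set V) :
    GenRigid d (G.induce U) ↔ ∃ p : V → Fin d → ℝ, RigidOn G U p := by
  classical
  constructor
  · rintro ⟨p, hp⟩
    refine ⟨fun v => if hv : v ∈ U then p ⟨v, hv⟩ else 0, ?_⟩
    rw [rigidOn_iff_induce]
    have : (fun x : U => (fun v => if hv : v ∈ U then p ⟨v, hv⟩ else 0) (x : V)) = p := by
      funext x
      simp
    rw [this]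
    exact hp
  · rintro ⟨p, hp⟩
    exact ⟨fun x => p x, (rigidOn_iff_induce G U p).1 hp⟩

theorem rigidOn_univ_iff {d : ℕ} (G : SimpleGraph V) (p : V → Fin d → ℝ) :
    RigidOn G Set.univ p ↔ InfRigid G p := by
  constructor
  · intro h q hq
    obtain ⟨A, b, hA, hb⟩ := h q (fun u _ v _ huv => hq u v huv)
    exact ⟨A, b, hA, fun v => hb v trivial⟩
  · intro h q hq
    obtain ⟨A, b, hA, hb⟩ := h q (fun u v huv => hq u trivial v trivial huv)
    exact ⟨A, b, hA, fun v _ => hb v⟩

theorem Gen.genRigid_iff {d : ℕ} {p : V → Fin d → ℝ} (hp : Gen p) (G : SimpleGraph V) :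
    GenRigid d G ↔ RigidOn G Set.univ p := by
  constructor
  · rintro ⟨p', hp'⟩
    exact hp.rigid G Set.univ p' ((rigidOn_univ_iff G p').2 hp')
  · intro h
    exact ⟨p, (rigidOn_univ_iff G p).1 h⟩

theorem Gen.genRigid_induce_iff {d : ℕ} {p : V → Fin d → ℝ} (hp : Gen p) (G : SimpleGraph V)
    (U : Set V) : GenRigid d (G.induce U) ↔ RigidOn G U p := by
  rw [DR.genRigid_induce_iff]
  constructor
  · rintro ⟨p', hp'⟩
    exact hp.rigid G U p' hp'
  · intro h
    exact ⟨p, h⟩

end Pool.Agent.H283R2.DR
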