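import Mathlib

set_option autoImplicit false

/-! Two counting lemmas (task E). -/

namespace Pool.Agent.H283R2.DR

open Finset

/-- Task E1: in a graph where all but `k` vertices have degree at least `δ`, each vertex `v` of
degree at least `δ` has a set `Z` of `D` neighbours with many common neighbours. -/
theorem exists_common {V : Type*} [Fintype V] [DecidableEq V] (G : SimpleGraph V)
    [DecidableRel G.Adj] (δ k D m : ℕ) (hD : 1 ≤ D)
    (hk : (univ.filter (fun v => G.degree v < δ)).card ≤ k)
    (hm : m + k ≤ δ) (hmδ : 2 * D * Fintype.card V ≤ m * δ) (v : V) (hv : δ ≤ G.degree v) :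
    ∃ Z : Finset V, Z.card = D ∧ (∀ z ∈ Z, G.Adj z v) ∧
      δ ≤ 2 * m ^ D * (univ.filter (fun y => ∀ z ∈ Z, G.Adj z y)).card := by
  have hn : 0 < Fintype.card V := Fintype.card_pos_iff.mpr ⟨v⟩
  have hmδ0 : 0 < m * δ := lt_of_lt_of_le (by positivity) hmδ
  have hm0 : 0 < m := Nat.pos_of_ne_zero (fun h => by simp [h] at hmδ0)
  have hδ0 : 0 < δ := Nat.pos_of_ne_zero (fun h => by simp [h] at hmδ0)
  -- the set S
  have h1 : m ≤ ((G.neighborFinset v).filter (fun z => δ ≤ G.degree z)).card := by
    have h2 := card_filter_add_card_filter_not (s := G.neighborFinset v)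
      (fun z => δ ≤ G.degree z)
    have h3 : ((G.neighborFinset v).filter (fun z => ¬ δ ≤ G.degree z)).card ≤ k := by
      refine (card_le_card ?_).trans hk
      intro z hz
      simp only [mem_filter, mem_univ, true_and] at hz ⊢
      exact not_le.mp hz.2
    have h4 : (G.neighborFinset v).card = G.degree v := G.card_neighborFinset_eq_degree v
    omega
  obtain ⟨S, hS, hSc⟩ := exists_subset_card_eq h1
  have hSadj : ∀ z ∈ S, G.Adj v z := fun z hz => by
    have := hS hz
    rw [mem_filter, SimpleGraph.mem_neighborFinset] at this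
    exact this.1
  have hSdeg : ∀ z ∈ S, δ ≤ G.degree z := fun z hz => (mem_filter.mp (hS hz)).2
  -- double counting
  have h5 : ∑ w : V, (S.filter (fun z => G.Adj w z)).card = ∑ z ∈ S, G.degree z := by
    have e1 : ∀ w : V, (S.filter (fun z => G.Adj w z)).card = ∑ z ∈ S, if G.Adj w z then 1 else 0 :=
      fun w => by rw [card_filter]
    rw [sum_congr rfl (fun w _ => e1 w), sum_comm]
    refine sum_congr rfl (fun z _ => ?_)
    rw [← card_filter, ← G.card_neighborFinset_eq_degree z]
    congr 1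
    ext w
    simp [SimpleGraph.adj_comm]
  have h6 : m * δ ≤ ∑ w : V, (S.filter (fun z => G.Adj w z)).card := by
    rw [h5, ← hSc, ← smul_eq_mul]
    exact card_nsmul_le_sum _ _ _ hSdeg
  set B := univ.filter (fun w : V => D ≤ (S.filter (fun z => G.Adj w z)).card) with hB
  have h7 : ∑ w : V, (S.filter (fun z => G.Adj w z)).card ≤ m * B.card + D * Fintype.card V := by
    have e1 : ∀ w : V, (S.filter (fun z => G.Adj w z)).card ≤ (if w ∈ B then m else 0) + D := by
      intro w
      by_cases hw : w ∈ B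
      · rw [if_pos hw, ← hSc]
        exact (card_filter_le _ _).trans (Nat.le_add_right _ _)
      · rw [if_neg hw, zero_add]
        rw [hB, mem_filter] at hw
        push Not at hw
        exact (hw (mem_univ _)).le
    refine (sum_le_sum (fun w _ => e1 w)).trans ?_
    rw [sum_add_distrib, ← sum_filter, sum_const, sum_const, card_univ, smul_eq_mul, smul_eq_mul]
    have : univ.filter (fun w => w ∈ B) = B := by ext w; simp
    rw [this]
    apply le_of_eq; ring
  have h8 : δ ≤ 2 * B.card := by
    have e1 : m * δ ≤ m * (2 * B.card) := by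
      have a : m * (2 * B.card) = 2 * (m * B.card) := by ring
      have b : 2 * D * Fintype.card V = 2 * (D * Fintype.card V) := by ring
      omega
    exact Nat.le_of_mul_le_mul_left e1 hm0
  have hBne : B.Nonempty := by
    rw [← card_pos]; omega
  have hcov : B ⊆ (powersetCard D S).biUnion
      (fun Z => univ.filter (fun y => ∀ z ∈ Z, G.Adj z y)) := by
    intro w hw
    rw [hB, mem_filter] at hw
    obtain ⟨Z, hZ, hZc⟩ := exists_subset_card_eq hw.2
    rw [mem_biUnion]
    refine ⟨Z, mem_powersetCard.mpr ⟨hZ.trans (filter_subset _ _), hZc⟩, ?_⟩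
    rw [mem_filter]
    exact ⟨mem_univ _, fun z hz => ((mem_filter.mp (hZ hz)).2).symm⟩
  have hPne : (powersetCard D S).Nonempty := by
    obtain ⟨w, hw⟩ := hBne
    obtain ⟨Z, hZ, _⟩ := mem_biUnion.mp (hcov hw)
    exact ⟨Z, hZ⟩
  obtain ⟨Z, hZ, hmax⟩ := exists_max_image (powersetCard D S)
    (fun Z => (univ.filter (fun y => ∀ z ∈ Z, G.Adj z y)).card) hPne
  obtain ⟨hZS, hZc⟩ := mem_powersetCard.mp hZ
  refine ⟨Z, hZc, fun z hz => (hSadj z (hZS hz)).symm, ?_⟩
  have h9 : B.card ≤ (powersetCard D S).card *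
      (univ.filter (fun y => ∀ z ∈ Z, G.Adj z y)).card := by
    refine (card_le_card hcov).trans (card_biUnion_le.trans ?_)
    rw [← smul_eq_mul]
    exact sum_le_card_nsmul _ _ _ (fun Z' hZ' => hmax Z' hZ')
  have h10 : (powersetCard D S).card ≤ m ^ D := by
    rw [card_powersetCard, hSc]
    exact Nat.choose_le_pow m D
  calc δ ≤ 2 * B.card := h8
    _ ≤ 2 * (m ^ D * (univ.filter (fun y => ∀ z ∈ Z, G.Adj z y)).card) :=
        Nat.mul_le_mul_left 2 (h9.trans (Nat.mul_le_mul_right _ h10))
    _ = _ := by ring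

/-- Task E2: few large sets with small pairwise intersections. -/
theorem card_family_lt {V : Type*} [Fintype V] [DecidableEq V] (h M : ℕ)
    (hM : 3 * Fintype.card V * M < h * h) (F : Finset (Finset V)) (hF : ∀ A ∈ F, h ≤ A.card)
    (hpair : ∀ A ∈ F, ∀ B ∈ F, A ≠ B → (A ∩ B).card < M) :
    F.card * h ≤ 3 * Fintype.card V := by
  by_contra hcon
  push Not at hcon
  set n := Fintype.card V with hn
  set t := F.card with ht
  have ht0 : 0 < t := Nat.pos_of_ne_zero (fun h0 => by rw [h0] at hcon; omega)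
  -- the multiplicities
  set c : V → ℕ := fun x => ∑ A ∈ F, if x ∈ A then 1 else 0 with hc
  set S := ∑ x : V, c x with hS
  have hS1 : S = ∑ A ∈ F, A.card := by
    rw [hS, hc]
    simp only
    rw [sum_comm]
    refine sum_congr rfl (fun A _ => ?_)
    simp
  have hS2 : t * h ≤ S := by
    rw [hS1, ← smul_eq_mul]
    exact card_nsmul_le_sum _ _ _ hF
  have hQ : ∑ x : V, c x ^ 2 = ∑ A ∈ F, ∑ B ∈ F, (A ∩ B).card := by
    have e1 : ∀ x : V, c x ^ 2 = ∑ A ∈ F, ∑ B ∈ F, if x ∈ A ∩ B then 1 else 0 := by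
      intro x
      rw [hc, sq, sum_mul_sum]
      refine sum_congr rfl (fun A _ => sum_congr rfl (fun B _ => ?_))
      by_cases h1 : x ∈ A <;> by_cases h2 : x ∈ B <;> simp [h1, h2]
    rw [sum_congr rfl (fun x _ => e1 x), sum_comm]
    refine sum_congr rfl (fun A _ => ?_)
    rw [sum_comm]
    refine sum_congr rfl (fun B _ => ?_)
    rw [← card_filter]
    congr 1
    ext x
    simp
  have hQ2 : ∑ x : V, c x ^ 2 ≤ S + t * t * M := by
    rw [hQ, hS1]
    have e1 : ∀ A ∈ F, ∑ B ∈ F, (A ∩ B).card ≤ A.card + t * M := by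
      intro A hA
      rw [← add_sum_erase F _ hA, inter_self]
      refine Nat.add_le_add_left ?_ _
      have : ∑ B ∈ F.erase A, (A ∩ B).card ≤ ∑ B ∈ F.erase A, M :=
        sum_le_sum (fun B hB => (hpair A hA B (mem_of_mem_erase hB)
          (ne_of_mem_erase hB).symm).le)
      refine this.trans ?_
      rw [sum_const, smul_eq_mul]
      exact Nat.mul_le_mul_right _ (card_le_card (erase_subset _ _))
    refine (sum_le_sum e1).trans ?_
    rw [sum_add_distrib, sum_const, smul_eq_mul]
    apply le_of_eq; ring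
  have hCS : S ^ 2 ≤ n * ∑ x : V, c x ^ 2 := by
    have := sq_sum_le_card_mul_sum_sq (s := (univ : Finset V)) (f := c)
    rwa [card_univ] at this
  have hfin : S ^ 2 ≤ n * (S + t * t * M) := hCS.trans (Nat.mul_le_mul_left _ hQ2)
  have h3n : 3 * n < S := lt_of_lt_of_le hcon hS2
  have h4 : 3 * n * S ≤ S ^ 2 := by nlinarith
  have h5 : (t * h) ^ 2 ≤ S ^ 2 := Nat.pow_le_pow_left hS2 2
  have h6 : 3 * n * M * (t * t) < h * h * (t * t) :=
    Nat.mul_lt_mul_of_pos_right hM (by positivity)
  nlinarith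

end Pool.Agent.H283R2.DR
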