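import Mathlib

set_option autoImplicit false

/-! Counting lemma, local version (after task E by helper705). -/

namespace Pool.Agent.H283R2.DR

open Finset

/-- Local version of `exists_common`. -/
theorem exists_common_local {V : Type*} [Fintype V] [DecidableEq V] (G : SimpleGraph V)
    [DecidableRel G.Adj] (δ k D m : ℕ) (hD : 1 ≤ D)
    (v : V) (hk : (univ.filter (fun z => G.Adj v z ∧ G.degree z < δ)).card ≤ k)
    (hm : m + k ≤ δ) (hmδ : 2 * D * Fintype.card V ≤ m * δ) (hv : δ ≤ G.degree v) :
    ∃ Z : Finset V, Z.card = D ∧ (∀ z ∈ Z, G.Adj z v) ∧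
      δ ≤ 2 * m ^ D * (univ.filter (fun y => ∀ z ∈ Z, G.Adj z y)).card := by
  have hn : 0 < Fintype.card V := Fintype.card_pos_iff.mpr ⟨v⟩
  have hmδ0 : 0 < m * δ := lt_of_lt_of_le (by positivity) hmδ
  have hm0 : 0 < m := Nat.pos_of_ne_zero (fun h => by simp [h] at hmδ0)
  have hδ0 : 0 < δ := Nat.pos_of_ne_zero (fun h => by simp [h] at hmδ0)
  -- the set S
  have h1 : m ≤ ((G.neighborFinset v).filter (fun z => δ ≤ G.degree z)).card := by
    have h2 := card_filter_add_card_filter_not (s := G.neighborFinset v)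
      (fun z => δ ≤ G.degree z)
    have h3 : ((G.neighborFinset v).filter (fun z => ¬ δ ≤ G.degree z)).card ≤ k := by
      refine (card_le_card ?_).trans hk
      intro z hz
      simp only [mem_filter, mem_univ, true_and, SimpleGraph.mem_neighborFinset] at hz ⊢
      exact ⟨hz.1, not_le.mp hz.2⟩
    have h4 : (G.neighborFinset v).card = G.degree v := G.card_neighborFinset_eq_degree v
    omega
  obtain ⟨S, hS, hSc⟩ := exists_subset_card_eq h1
  have hSadj : ∀ z ∈ S, G.Adj v z := fun z hz => by
    have := hS hz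
    rw [mem_filter, SimpleGraph.mem_neighborFinset] at this
    exact this.1
  have hSdeg : ∀ z ∈ S, δ ≤ G.degree z := fun z hz => (mem_filter.mp (hS hz)).2
  -- double counting
  have h5 : ∑ w : V, (S.filter (fun z => G.Adj w z)).card = ∑ z ∈ S, G.degree z := by
    have e1 : ∀ w : V, (S.filter (fun z => G.Adj w z)).card = ∑ z ∈ S, if G.Adj w z then 1 else 0 :=
      fun w => by rw [card_filter]
    rw [sum_congr rfl (fun w _ => e1 w), sum_comm]
    refine sum_congr rfl (fun z _ => ?_)
    rw [← card_filter, ← G.card_neighborFinset_eq_degree z]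
    congr 1
    ext w
    simp [SimpleGraph.adj_comm]
  have h6 : m * δ ≤ ∑ w : V, (S.filter (fun z => G.Adj w z)).card := by
    rw [h5, ← hSc, ← smul_eq_mul]
    exact card_nsmul_le_sum _ _ _ hSdeg
  set B := univ.filter (fun w : V => D ≤ (S.filter (fun z => G.Adj w z)).card) with hB
  have h7 : ∑ w : V, (S.filter (fun z => G.Adj w z)).card ≤ m * B.card + D * Fintype.card V := by
    have e1 : ∀ w : V, (S.filter (fun z => G.Adj w z)).card ≤ (if w ∈ B then m else 0) + D := by
      intro w
      by_cases hw : w ∈ B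
      · rw [if_pos hw, ← hSc]
        exact (card_filter_le _ _).trans (Nat.le_add_right _ _)
      · rw [if_neg hw, zero_add]
        rw [hB, mem_filter] at hw
        push Not at hw
        exact (hw (mem_univ _)).le
    refine (sum_le_sum (fun w _ => e1 w)).trans ?_
    rw [sum_add_distrib, ← sum_filter, sum_const, sum_const, card_univ, smul_eq_mul, smul_eq_mul]
    have : univ.filter (fun w => w ∈ B) = B := by ext w; simp
    rw [this]
    apply le_of_eq; ring
  have h8 : δ ≤ 2 * B.card := by
    have e1 : m * δ ≤ m * (2 * B.card) := by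
      have a : m * (2 * B.card) = 2 * (m * B.card) := by ring
      have b : 2 * D * Fintype.card V = 2 * (D * Fintype.card V) := by ring
      omega
    exact Nat.le_of_mul_le_mul_left e1 hm0
  have hBne : B.Nonempty := by
    rw [← card_pos]; omega
  have hcov : B ⊆ (powersetCard D S).biUnion
      (fun Z => univ.filter (fun y => ∀ z ∈ Z, G.Adj z y)) := by
    intro w hw
    rw [hB, mem_filter] at hw
    obtain ⟨Z, hZ, hZc⟩ := exists_subset_card_eq hw.2
    rw [mem_biUnion]
    refine ⟨Z, mem_powersetCard.mpr ⟨hZ.trans (filter_subset _ _), hZc⟩, ?_⟩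
    rw [mem_filter]
    exact ⟨mem_univ _, fun z hz => ((mem_filter.mp (hZ hz)).2).symm⟩
  have hPne : (powersetCard D S).Nonempty := by
    obtain ⟨w, hw⟩ := hBne
    obtain ⟨Z, hZ, _⟩ := mem_biUnion.mp (hcov hw)
    exact ⟨Z, hZ⟩
  obtain ⟨Z, hZ, hmax⟩ := exists_max_image (powersetCard D S)
    (fun Z => (univ.filter (fun y => ∀ z ∈ Z, G.Adj z y)).card) hPne
  obtain ⟨hZS, hZc⟩ := mem_powersetCard.mp hZ
  refine ⟨Z, hZc, fun z hz => (hSadj z (hZS hz)).symm, ?_⟩
  have h9 : B.card ≤ (powersetCard D S).card *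
      (univ.filter (fun y => ∀ z ∈ Z, G.Adj z y)).card := by
    refine (card_le_card hcov).trans (card_biUnion_le.trans ?_)
    rw [← smul_eq_mul]
    exact sum_le_card_nsmul _ _ _ (fun Z' hZ' => hmax Z' hZ')
  have h10 : (powersetCard D S).card ≤ m ^ D := by
    rw [card_powersetCard, hSc]
    exact Nat.choose_le_pow m D
  calc δ ≤ 2 * B.card := h8
    _ ≤ 2 * (m ^ D * (univ.filter (fun y => ∀ z ∈ Z, G.Adj z y)).card) :=
        Nat.mul_le_mul_left 2 (h9.trans (Nat.mul_le_mul_right _ h10))
    _ = _ := by ring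

end Pool.Agent.H283R2.DR
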