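import Mathlib

set_option autoImplicit false

/-! A maximal family of sets with small pairwise common neighbourhoods. -/

namespace Pool.Agent.H283R2.DR

open Finset

/-- common neighbours -/
def nbh {V : Type*} [Fintype V] (G : SimpleGraph V) [DecidableRel G.Adj]
    (Z : Finset V) : Finset V := univ.filter (fun y => ∀ z ∈ Z, G.Adj z y)

theorem mem_nbh {V : Type*} [Fintype V] (G : SimpleGraph V)
    [DecidableRel G.Adj] (Z : Finset V) (y : V) : y ∈ nbh G Z ↔ ∀ z ∈ Z, G.Adj z y := by
  simp [nbh]

/-- a maximal family of sets with small pairwise common neighbourhoods -/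
theorem exists_family {V : Type*} [Fintype V] [DecidableEq V] (G : SimpleGraph V)
    [DecidableRel G.Adj] (D M h : ℕ) (hMh : M ≤ h) :
    ∃ F : Finset (Finset V), (∀ Z ∈ F, Z.card = D ∧ h ≤ (nbh G Z).card) ∧
      (∀ A ∈ F, ∀ B ∈ F, A ≠ B → (nbh G A ∩ nbh G B).card < M) ∧
      ∀ Z : Finset V, Z.card = D → h ≤ (nbh G Z).card →
        ∃ Z' ∈ F, M ≤ (nbh G Z ∩ nbh G Z').card := by
  classical
  set Q : Finset (Finset V) := univ.filter (fun Z => Z.card = D ∧ h ≤ (nbh G Z).card) with hQ
  set PP : Finset (Finset (Finset V)) := Q.powerset.filter (fun F =>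
    ∀ A ∈ F, ∀ B ∈ F, A ≠ B → (nbh G A ∩ nbh G B).card < M) with hPP
  have hne : PP.Nonempty := ⟨∅, by simp [hPP]⟩
  obtain ⟨F, hF, hmax⟩ := Finset.exists_max_image PP Finset.card hne
  rw [hPP, Finset.mem_filter, Finset.mem_powerset] at hF
  refine ⟨F, ?_, hF.2, ?_⟩
  · intro Z hZ
    have := hF.1 hZ
    simpa [hQ] using this
  · intro Z hZD hZh
    by_cases hZF : Z ∈ F
    · refine ⟨Z, hZF, ?_⟩
      rw [Finset.inter_self]
      omega
    · by_contra hcon
      push Not at hcon
      have hins : insert Z F ∈ PP := by
        rw [hPP, Finset.mem_filter, Finset.mem_powerset]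
        constructor
        · intro A hA
          rcases Finset.mem_insert.1 hA with rfl | hA
          · simp [hQ, hZD, hZh]
          · exact hF.1 hA
        · intro A hA B hB hAB
          rcases Finset.mem_insert.1 hA with hA1 | hA1
          · rcases Finset.mem_insert.1 hB with hB1 | hB1
            · exact absurd (hA1.trans hB1.symm) hAB
            · rw [hA1]
              exact hcon B hB1
          · rcases Finset.mem_insert.1 hB with hB1 | hB1
            · rw [hB1, Finset.inter_comm]
              exact hcon A hA1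
            · exact hF.2 A hA1 B hB1 hAB
      have := hmax _ hins
      rw [Finset.card_insert_of_notMem hZF] at this
      omega

end Pool.Agent.H283R2.DR
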