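import Mathlib
import Pool.Agent.H283R2.DR.Defs

set_option autoImplicit false

/-! Task A: a generic placement exists. -/

namespace Pool.Agent.H283R2.DR

open Matrix Finset

namespace TA

/-! ### Perturbation of injective linear maps and of the rank -/

section lin

variable {X Y : Type*} [AddCommGroup X] [Module ℝ X] [AddCommGroup Y] [Module ℝ Y]

theorem inj_good [FiniteDimensional ℝ X] (f g : X →ₗ[ℝ] Y) (hf : Function.Injective f) :
    {s : ℝ | ¬ Function.Injective (f + s • g)}.Finite := by
  obtain ⟨L, hL⟩ := f.exists_leftInverse_of_injective (LinearMap.ker_eq_bot.2 hf)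
  set B : Module.End ℝ X := L.comp g with hB
  have hfin : {μ : ℝ | B.HasEigenvalue μ}.Finite := Module.End.finite_hasEigenvalue B
  have h1 : {s : ℝ | ¬ Function.Injective (f + s • g)} ⊆
      (fun s : ℝ => -s⁻¹) ⁻¹' {μ : ℝ | B.HasEigenvalue μ} := by
    intro s hs
    rw [Set.mem_ofPred_eq, injective_iff_map_eq_zero] at hs
    push Not at hs
    obtain ⟨x, hx, hx0⟩ := hs
    have h2 : x + s • B x = 0 := by
      have h3 := congrArg L hx
      rw [LinearMap.add_apply, LinearMap.smul_apply, map_add, map_smul, map_zero] at h3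
      have h4 : L (f x) = x := by
        have := LinearMap.congr_fun hL x
        simpa using this
      rw [h4] at h3
      exact h3
    have hs0 : s ≠ 0 := by
      rintro rfl
      simp at h2
      exact hx0 h2
    rw [Set.mem_preimage, Set.mem_ofPred_eq]
    refine Module.End.hasEigenvalue_of_hasEigenvector (x := x) ⟨?_, hx0⟩
    rw [Module.End.mem_eigenspace_iff]
    have h5 : s • B x = -x := by
      rw [eq_neg_iff_add_eq_zero, add_comm]; exact h2
    calc B x = s⁻¹ • (s • B x) := by rw [smul_smul, inv_mul_cancel₀ hs0, one_smul]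
      _ = (-s⁻¹) • x := by rw [h5, smul_neg, neg_smul]
  refine Set.Finite.subset (hfin.preimage ?_) h1
  intro a _ b _ hab
  have : a⁻¹ = b⁻¹ := neg_injective hab
  exact inv_injective this

theorem rank_good [FiniteDimensional ℝ X] [FiniteDimensional ℝ Y] (f g : X →ₗ[ℝ] Y) :
    {s : ℝ | Module.finrank ℝ (LinearMap.range (f + s • g)) <
      Module.finrank ℝ (LinearMap.range f)}.Finite := by
  obtain ⟨C, hC⟩ := (LinearMap.ker f).exists_isCompl
  have hinj : Function.Injective (f.comp C.subtype) := by
    rw [injective_iff_map_eq_zero]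
    intro x hx
    have h1 : (x : X) ∈ LinearMap.ker f := by simpa using hx
    have h2 : (x : X) ∈ LinearMap.ker f ⊓ C := ⟨h1, x.2⟩
    rw [hC.inf_eq_bot] at h2
    simpa using h2
  have h := inj_good (f.comp C.subtype) (g.comp C.subtype) hinj
  refine h.subset ?_
  intro s hs
  rw [Set.mem_ofPred_eq] at hs ⊢
  intro hi
  have e1 : f.comp C.subtype + s • g.comp C.subtype = (f + s • g).comp C.subtype := by
    ext x; simp
  rw [e1] at hi
  have h2 : Module.finrank ℝ (LinearMap.range ((f + s • g).comp C.subtype)) =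
      Module.finrank ℝ C := LinearMap.finrank_range_of_inj hi
  have h3 : Module.finrank ℝ (LinearMap.range ((f + s • g).comp C.subtype)) ≤
      Module.finrank ℝ (LinearMap.range (f + s • g)) :=
    Submodule.finrank_mono (LinearMap.range_comp_le_range _ _)
  have h4 : Module.finrank ℝ (LinearMap.range f) = Module.finrank ℝ C := by
    have h5 := LinearMap.finrank_range_add_finrank_ker f
    have h6 := Submodule.finrank_add_eq_of_isCompl hC
    omega
  omega

theorem linInd_good {ι : Type*} [Finite ι] (v w : ι → Y) (hv : LinearIndependent ℝ v) :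
    {s : ℝ | ¬ LinearIndependent ℝ (fun i => v i + s • w i)}.Finite := by
  classical
  haveI := Fintype.ofFinite ι
  have h1 : Function.Injective (Fintype.linearCombination ℝ v) :=
    linearIndependent_iff_injective_fintypeLinearCombination.1 hv
  refine (inj_good _ (Fintype.linearCombination ℝ w) h1).subset ?_
  intro s hs
  rw [Set.mem_ofPred_eq] at hs ⊢
  intro hi
  apply hs
  rw [linearIndependent_iff_injective_fintypeLinearCombination]
  have e : Fintype.linearCombination ℝ (fun i => v i + s • w i) =
      Fintype.linearCombination ℝ v + s • Fintype.linearCombination ℝ w := by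
    refine LinearMap.ext fun c => ?_
    simp only [Fintype.linearCombination_apply, LinearMap.add_apply, LinearMap.smul_apply,
      smul_add, Finset.sum_add_distrib, Finset.smul_sum]
    congr 1
    refine Finset.sum_congr rfl fun i _ => ?_
    rw [smul_comm]
  rw [e]
  exact hi

end lin

/-! ### Good predicates -/

/-- `P` fails only finitely often on each line through a point where it holds. -/
def Good {E : Type*} [AddCommGroup E] [Module ℝ E] (P : E → Prop) : Prop :=
  ∀ p0 p1 : E, P p0 → {s : ℝ | ¬ P (p0 + s • (p1 - p0))}.Finite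

theorem good_family {E ι : Type*} [AddCommGroup E] [Module ℝ E] [Finite ι] (P : ι → E → Prop)
    (hG : ∀ i, Good (P i)) (hs : ∀ i, ∃ p, P i p) : ∃ p, ∀ i, P i p := by
  classical
  haveI := Fintype.ofFinite ι
  have key : ∀ t : Finset ι, ∃ p, ∀ i ∈ t, P i p := by
    intro t
    induction t using Finset.induction_on with
    | empty => exact ⟨0, by simp⟩
    | insert a t ha ih =>
      obtain ⟨p0, hp0⟩ := ih
      obtain ⟨p1, hp1⟩ := hs a
      have h1 : (⋃ i ∈ t, {s : ℝ | ¬ P i (p0 + s • (p1 - p0))}).Finite :=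
        Set.Finite.biUnion t.finite_toSet (fun i hi => hG i p0 p1 (hp0 i hi))
      have h2 : {s : ℝ | ¬ P a (p0 + s • (p1 - p0))}.Finite := by
        have h3 := (hG a p1 p0 hp1).preimage (f := fun s : ℝ => 1 - s)
          (fun a _ b _ hab => by simpa using hab)
        refine h3.subset ?_
        intro s hs
        rw [Set.mem_preimage, Set.mem_ofPred_eq]
        rw [Set.mem_ofPred_eq] at hs
        have e : p1 + (1 - s) • (p0 - p1) = p0 + s • (p1 - p0) := by
          rw [sub_smul, one_smul, smul_sub, smul_sub]; abel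
        rw [e]; exact hs
      obtain ⟨s, hs⟩ := (h1.union h2).infinite_compl.nonempty
      rw [Set.mem_compl_iff, Set.mem_union, not_or] at hs
      obtain ⟨hs1, hs2⟩ := hs
      refine ⟨p0 + s • (p1 - p0), ?_⟩
      intro i hi
      rcases Finset.mem_insert.1 hi with rfl | hi
      · by_contra hc
        exact hs2 hc
      · by_contra hc
        exact hs1 (Set.mem_biUnion (Finset.mem_coe.2 hi) hc)
  obtain ⟨p, hp⟩ := key Finset.univ
  exact ⟨p, fun i => hp i (Finset.mem_univ i)⟩

/-! ### Infinitesimal rigidity is good -/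

section rigid

variable {W : Type*} {d : ℕ}

/-- skew-symmetric matrices -/
def Sk (d : ℕ) : Submodule ℝ (Matrix (Fin d) (Fin d) ℝ) where
  carrier := {A | Aᵀ = -A}
  zero_mem' := by simp
  add_mem' := by
    intro A B hA hB
    simp only [Set.mem_ofPred_eq] at *
    rw [transpose_add, hA, hB, neg_add]
  smul_mem' := by
    intro c A hA
    simp only [Set.mem_ofPred_eq] at *
    rw [transpose_smul, hA, smul_neg]

/-- the rigidity map -/
noncomputable def rig (G : SimpleGraph W) (p : W → Fin d → ℝ) :
    (W → Fin d → ℝ) →ₗ[ℝ] (W × W → ℝ) := by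
  classical
  exact
  { toFun := fun q e => if G.Adj e.1 e.2 then (p e.1 - p e.2) ⬝ᵥ (q e.1 - q e.2) else 0
    map_add' := by
      intro q q'
      funext e
      by_cases h : G.Adj e.1 e.2
      · simp only [h, if_true, Pi.add_apply]
        rw [← dotProduct_add]
        congr 1
        abel
      · simp [h]
    map_smul' := by
      intro c q
      funext e
      by_cases h : G.Adj e.1 e.2
      · simp only [h, if_true, Pi.smul_apply, RingHom.id_apply]
        rw [← smul_sub, dotProduct_smul]
      · simp [h] }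

theorem rig_apply_of_adj (G : SimpleGraph W) (p q : W → Fin d → ℝ) {u v : W} (h : G.Adj u v) :
    rig G p q (u, v) = (p u - p v) ⬝ᵥ (q u - q v) := by
  simp [rig, h]

theorem rig_apply_of_not (G : SimpleGraph W) (p q : W → Fin d → ℝ) {u v : W} (h : ¬ G.Adj u v) :
    rig G p q (u, v) = 0 := by
  simp [rig, h]

theorem mem_ker_rig (G : SimpleGraph W) (p q : W → Fin d → ℝ) :
    q ∈ LinearMap.ker (rig G p) ↔ IsMotion G p q := by
  rw [LinearMap.mem_ker]
  constructor
  · intro h u v huv
    have := congrFun h (u, v)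
    rwa [rig_apply_of_adj G p q huv] at this
  · intro h
    funext e
    obtain ⟨u, v⟩ := e
    by_cases huv : G.Adj u v
    · rw [rig_apply_of_adj G p q huv]; exact h u v huv
    · rw [rig_apply_of_not G p q huv]; rfl

theorem rig_line (G : SimpleGraph W) (p0 p1 : W → Fin d → ℝ) (s : ℝ) :
    rig G (p0 + s • p1) = rig G p0 + s • rig G p1 := by
  refine LinearMap.ext fun q => funext fun e => ?_
  obtain ⟨u, v⟩ := e
  rw [LinearMap.add_apply, LinearMap.smul_apply, Pi.add_apply, Pi.smul_apply]
  by_cases huv : G.Adj u v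
  · rw [rig_apply_of_adj _ _ _ huv, rig_apply_of_adj _ _ _ huv, rig_apply_of_adj _ _ _ huv]
    simp only [Pi.add_apply, Pi.smul_apply]
    rw [← smul_dotProduct, ← add_dotProduct]
    congr 1
    rw [smul_sub]; abel
  · rw [rig_apply_of_not _ _ _ huv, rig_apply_of_not _ _ _ huv, rig_apply_of_not _ _ _ huv]
    simp

/-- trivial motions -/
def triv (p : W → Fin d → ℝ) : (Sk d × (Fin d → ℝ)) →ₗ[ℝ] (W → Fin d → ℝ) where
  toFun x v := (x.1 : Matrix (Fin d) (Fin d) ℝ) *ᵥ p v + x.2
  map_add' := by
    intro x y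
    funext v
    simp only [Prod.fst_add, Prod.snd_add, Submodule.coe_add, add_mulVec, Pi.add_apply]
    abel
  map_smul' := by
    intro c x
    funext v
    simp only [Prod.smul_fst, Prod.smul_snd, Submodule.coe_smul, smul_mulVec, Pi.smul_apply,
      RingHom.id_apply, smul_add]

/-- the linear part of `triv` in `p` -/
def trivL (p : W → Fin d → ℝ) : (Sk d × (Fin d → ℝ)) →ₗ[ℝ] (W → Fin d → ℝ) where
  toFun x v := (x.1 : Matrix (Fin d) (Fin d) ℝ) *ᵥ p v
  map_add' := by
    intro x y
    funext v
    simp only [Prod.fst_add, Submodule.coe_add, add_mulVec, Pi.add_apply]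
  map_smul' := by
    intro c x
    funext v
    simp only [Prod.smul_fst, Submodule.coe_smul, smul_mulVec, Pi.smul_apply,
      RingHom.id_apply]

theorem triv_line (p0 p1 : W → Fin d → ℝ) (s : ℝ) :
    triv (p0 + s • p1) = triv p0 + s • trivL p1 := by
  refine LinearMap.ext fun x => funext fun v => ?_
  rw [LinearMap.add_apply, LinearMap.smul_apply, Pi.add_apply, Pi.smul_apply]
  simp only [triv, trivL, LinearMap.coe_mk, AddHom.coe_mk, Pi.add_apply, Pi.smul_apply,
    mulVec_add, mulVec_smul]
  abel

theorem skew_dot {A : Matrix (Fin d) (Fin d) ℝ} (hA : Aᵀ = -A) (x : Fin d → ℝ) :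
    x ⬝ᵥ (A *ᵥ x) = 0 := by
  have h1 : x ⬝ᵥ (A *ᵥ x) = (Aᵀ *ᵥ x) ⬝ᵥ x := by
    rw [mulVec_transpose, dotProduct_mulVec]
  rw [hA, neg_mulVec, neg_dotProduct, dotProduct_comm] at h1
  rw [dotProduct_comm]
  linarith

theorem range_triv_le (G : SimpleGraph W) (p : W → Fin d → ℝ) :
    LinearMap.range (triv p) ≤ LinearMap.ker (rig G p) := by
  rintro _ ⟨⟨A, b⟩, rfl⟩
  rw [mem_ker_rig]
  intro u v _
  have h1 : triv p (A, b) u - triv p (A, b) v = (A : Matrix (Fin d) (Fin d) ℝ) *ᵥ (p u - p v) := by
    simp only [triv, LinearMap.coe_mk, AddHom.coe_mk, mulVec_sub]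
    abel
  rw [h1]
  exact skew_dot A.2 _

theorem infRigid_iff (G : SimpleGraph W) (p : W → Fin d → ℝ) :
    InfRigid G p ↔ LinearMap.ker (rig G p) ≤ LinearMap.range (triv p) := by
  constructor
  · intro h q hq
    obtain ⟨A, b, hA, hb⟩ := h q ((mem_ker_rig G p q).1 hq)
    exact ⟨(⟨A, hA⟩, b), funext fun v => (hb v).symm⟩
  · intro h q hq
    obtain ⟨⟨A, b⟩, hx⟩ := h ((mem_ker_rig G p q).2 hq)
    exact ⟨A, b, A.2, fun v => (congrFun hx v).symm⟩

theorem infRigid_good [Finite W] (G : SimpleGraph W) :
    Good (fun p : W → Fin d → ℝ => InfRigid G p) := by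
  classical
  haveI := Fintype.ofFinite W
  intro p0 p1 h0
  have h1 := rank_good (rig G p0) (rig G (p1 - p0))
  have h2 := rank_good (triv p0) (trivL (p1 - p0))
  refine (h1.union h2).subset ?_
  intro s hs
  by_contra hc
  rw [Set.mem_union, not_or, Set.mem_ofPred_eq, Set.mem_ofPred_eq, not_lt, not_lt] at hc
  obtain ⟨hc1, hc2⟩ := hc
  apply hs
  rw [← rig_line] at hc1
  rw [← triv_line] at hc2
  rw [infRigid_iff] at h0 ⊢
  have e0 : LinearMap.range (triv p0) = LinearMap.ker (rig G p0) :=
    le_antisymm (range_triv_le G p0) h0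
  have e1 := LinearMap.finrank_range_add_finrank_ker (rig G p0)
  have e2 := LinearMap.finrank_range_add_finrank_ker (rig G (p0 + s • (p1 - p0)))
  have e3 : Module.finrank ℝ (LinearMap.range (triv p0)) =
      Module.finrank ℝ (LinearMap.ker (rig G p0)) := by rw [e0]
  have e4 : LinearMap.range (triv (p0 + s • (p1 - p0))) =
      LinearMap.ker (rig G (p0 + s • (p1 - p0))) :=
    Submodule.eq_of_le_of_finrank_le (range_triv_le G _) (by omega)
  exact e4.ge

end rigid

/-! ### General position is good -/

theorem affine_good {V : Type*} {d n : ℕ} (x : Fin n → V) :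
    Good (fun p : V → Fin d → ℝ => AffineIndependent ℝ (fun i => p (x i))) := by
  intro p0 p1 h0
  rcases Nat.eq_zero_or_pos n with rfl | hn
  · have : {s : ℝ | ¬ AffineIndependent ℝ (fun i : Fin 0 => (p0 + s • (p1 - p0)) (x i))} = ∅ := by
      ext s
      simp only [Set.mem_ofPred_eq, Set.mem_empty_iff_false, iff_false, not_not]
      exact affineIndependent_of_subsingleton ℝ _
    rw [this]
    exact Set.finite_empty
  · set i1 : Fin n := ⟨0, hn⟩ with hi1
    rw [affineIndependent_iff_linearIndependent_vsub ℝ _ i1] at h0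
    refine (linInd_good _ (fun i : {y : Fin n // y ≠ i1} =>
      (p1 - p0) (x i) - (p1 - p0) (x i1)) h0).subset ?_
    intro s hs
    rw [Set.mem_ofPred_eq] at hs ⊢
    intro hi
    apply hs
    rw [affineIndependent_iff_linearIndependent_vsub ℝ _ i1]
    have e : (fun i : {y : Fin n // y ≠ i1} => (p0 + s • (p1 - p0)) (x i) -ᵥ
        (p0 + s • (p1 - p0)) (x i1)) = fun i : {y : Fin n // y ≠ i1} =>
        p0 (x i) -ᵥ p0 (x i1) + s • ((p1 - p0) (x i) - (p1 - p0) (x i1)) := by
      funext i
      simp only [vsub_eq_sub, Pi.add_apply, Pi.smul_apply, Pi.sub_apply, smul_sub]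
      abel
    rw [e]
    exact hi

theorem affine_sat {V : Type*} {d n : ℕ} (hn : n ≤ d + 1) (x : Fin n → V)
    (hx : Function.Injective x) :
    ∃ p : V → Fin d → ℝ, AffineIndependent ℝ (fun i => p (x i)) := by
  obtain ⟨b⟩ := AffineBasis.exists_affineBasis_of_finiteDimensional (ι := Fin (d + 1)) (k := ℝ)
    (P := Fin d → ℝ) (V := Fin d → ℝ) (by simp)
  refine ⟨Function.extend x (fun i => b (Fin.castLE hn i)) 0, ?_⟩
  have h1 : (fun i => Function.extend x (fun i => b (Fin.castLE hn i)) 0 (x i)) =
      fun i => b (Fin.castLE hn i) := by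
    funext i
    rw [hx.extend_apply]
  rw [h1]
  exact b.ind.comp_embedding (Fin.castLEEmb hn)

end TA

open TA in
/-- Task A: a generic placement exists. -/
theorem exists_gen (V : Type*) [Finite V] (d : ℕ) : ∃ p : V → Fin d → ℝ, Gen p := by
  classical
  have h := good_family (E := V → Fin d → ℝ)
    (ι := (SimpleGraph V × Set V) ⊕ (Σ n : Fin (d + 2), (Fin n → V)))
    (fun i p => match i with
      | Sum.inl a => (∃ p' : V → Fin d → ℝ, RigidOn a.1 a.2 p') → RigidOn a.1 a.2 p
      | Sum.inr a => Function.Injective a.2 → AffineIndependent ℝ (fun i => p (a.2 i))) ?_ ?_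
  · obtain ⟨p, hp⟩ := h
    refine ⟨p, ⟨?_, ?_⟩⟩
    · intro H U p' hp'
      exact hp (Sum.inl (H, U)) ⟨p', hp'⟩
    · intro n x hn hx
      exact hp (Sum.inr ⟨⟨n, by omega⟩, x⟩) hx
  · rintro (⟨H, U⟩ | ⟨n, x⟩)
    · intro p0 p1 h0
      by_cases hex : ∃ p' : V → Fin d → ℝ, RigidOn H U p'
      · have h1 : InfRigid (H.induce U) (fun x : U => p0 x) :=
          (rigidOn_iff_induce H U p0).1 (h0 hex)
        refine (infRigid_good (H.induce U) (fun x : U => p0 x) (fun x : U => p1 x) h1).subset ?_
        intro s hs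
        rw [Set.mem_ofPred_eq] at hs ⊢
        intro hc
        apply hs
        intro _
        rw [rigidOn_iff_induce]
        exact hc
      · refine Set.finite_empty.subset ?_
        intro s hs
        exact absurd (fun h => absurd h hex) hs
    · intro p0 p1 h0
      by_cases hx : Function.Injective x
      · refine (affine_good x p0 p1 (h0 hx)).subset ?_
        intro s hs
        rw [Set.mem_ofPred_eq] at hs ⊢
        intro hc
        exact hs (fun _ => hc)
      · refine Set.finite_empty.subset ?_
        intro s hs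
        exact absurd (fun h => absurd h hx) hs
  · rintro (⟨H, U⟩ | ⟨n, x⟩)
    · by_cases hex : ∃ p' : V → Fin d → ℝ, RigidOn H U p'
      · obtain ⟨p', hp'⟩ := hex
        exact ⟨p', fun _ => hp'⟩
      · exact ⟨0, fun h => absurd h hex⟩
    · by_cases hx : Function.Injective x
      · obtain ⟨p, hp⟩ := affine_sat (d := d) (by omega) x hx
        exact ⟨p, fun _ => hp⟩
      · exact ⟨0, fun h => absurd h hx⟩

end Pool.Agent.H283R2.DR
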