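import Mathlib
import Pool.Agent.H283R2.DR.Defs

set_option autoImplicit false

/-! Trivial motions are determined by `d` vertices in general position. -/

namespace Pool.Agent.H283R2.DR

open Matrix Finset Module

theorem skew_dot {n : ℕ} {B : Matrix (Fin n) (Fin n) ℝ} (hB : Bᵀ = -B) (x y : Fin n → ℝ) :
    x ⬝ᵥ (B *ᵥ y) = -((B *ᵥ x) ⬝ᵥ y) := by
  rw [Matrix.dotProduct_mulVec, ← Matrix.mulVec_transpose, hB, Matrix.neg_mulVec, neg_dotProduct]

theorem skew_dot_self {n : ℕ} {B : Matrix (Fin n) (Fin n) ℝ} (hB : Bᵀ = -B) (x : Fin n → ℝ) :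
    x ⬝ᵥ (B *ᵥ x) = 0 := by
  have h := skew_dot hB x x
  rw [dotProduct_comm (B *ᵥ x) x] at h
  linarith

theorem mulVec_eq_zero_all {n : ℕ} {B : Matrix (Fin n) (Fin n) ℝ} (h : ∀ x, B *ᵥ x = 0) :
    B = 0 := by
  ext i j
  have := congrFun (h (Pi.single j 1)) i
  simpa [Matrix.mulVec_single] using this

theorem skew_zero {n : ℕ} {B : Matrix (Fin n) (Fin n) ℝ} (hB : Bᵀ = -B)
    (W : Submodule ℝ (Fin n → ℝ)) (hW : n ≤ finrank ℝ W + 1) (hBW : ∀ w ∈ W, B *ᵥ w = 0) :
    B = 0 := by
  apply mulVec_eq_zero_all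
  by_cases hWt : W = ⊤
  · intro x
    exact hBW x (hWt ▸ Submodule.mem_top)
  · obtain ⟨x0, hx0⟩ : ∃ x0, x0 ∉ W := by
      by_contra hcon
      push Not at hcon
      exact hWt (Submodule.eq_top_iff'.2 hcon)
    have hlt : W < W ⊔ Submodule.span ℝ {x0} := by
      refine lt_of_le_of_ne le_sup_left ?_
      intro heq
      apply hx0
      rw [heq]
      exact Submodule.mem_sup_right (Submodule.mem_span_singleton_self x0)
    have htop : W ⊔ Submodule.span ℝ {x0} = ⊤ := by
      apply Submodule.eq_top_of_finrank_eq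
      have h1 := Submodule.finrank_lt_finrank_of_lt hlt
      have h2 : finrank ℝ (Fin n → ℝ) = n := by simp
      have h3 := Submodule.finrank_le (W ⊔ Submodule.span ℝ {x0})
      omega
    have hdec : ∀ y : Fin n → ℝ, ∃ w ∈ W, ∃ l : ℝ, y = w + l • x0 := by
      intro y
      have hy : y ∈ W ⊔ Submodule.span ℝ {x0} := htop ▸ Submodule.mem_top
      obtain ⟨w, hw, z, hz, hwz⟩ := Submodule.mem_sup.1 hy
      obtain ⟨l, hl⟩ := Submodule.mem_span_singleton.1 hz
      exact ⟨w, hw, l, by rw [hl, hwz]⟩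
    have hx : B *ᵥ x0 = 0 := by
      have h1 : ∀ z : Fin n → ℝ, z ⬝ᵥ (B *ᵥ x0) = 0 := by
        intro z
        obtain ⟨w, hw, l, rfl⟩ := hdec z
        rw [add_dotProduct, smul_dotProduct, skew_dot_self hB, skew_dot hB, hBW w hw]
        simp
      have h2 := h1 (B *ᵥ x0)
      exact dotProduct_self_eq_zero.1 h2
    intro y
    obtain ⟨w, hw, l, rfl⟩ := hdec y
    rw [Matrix.mulVec_add, Matrix.mulVec_smul, hBW w hw, hx]
    simp

/-- Task B: trivial motions are determined by `d` vertices. -/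
theorem triv_unique {V : Type*} {d : ℕ} {p : V → Fin d → ℝ} (hp : Gen p) {S : Finset V}
    (hS : d ≤ S.card) {A A' : Matrix (Fin d) (Fin d) ℝ} {b b' : Fin d → ℝ} (hA : Aᵀ = -A)
    (hA' : A'ᵀ = -A') (h : ∀ v ∈ S, A *ᵥ p v + b = A' *ᵥ p v + b') : A = A' ∧ b = b' := by
  classical
  rcases Nat.eq_zero_or_pos d with hd | hd
  · subst hd
    exact ⟨Subsingleton.elim _ _, Subsingleton.elim _ _⟩
  · obtain ⟨T, hTS, hTc⟩ := Finset.exists_subset_card_eq hS
    let x : Fin d → V := fun i => (T.equivFin.symm (Fin.cast hTc.symm i) : V)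
    have hx : Function.Injective x := by
      intro i j hij
      have h1 := Subtype.ext hij
      have h2 := T.equivFin.symm.injective h1
      exact Fin.cast_injective _ h2
    have hxS : ∀ i, x i ∈ S := fun i => hTS (T.equivFin.symm (Fin.cast hTc.symm i)).2
    have hai := hp.pos d x (Nat.le_succ d) hx
    let i0 : Fin d := ⟨0, hd⟩
    rw [affineIndependent_iff_linearIndependent_vsub ℝ _ i0] at hai
    have hB : (A - A')ᵀ = -(A - A') := by
      rw [Matrix.transpose_sub, hA, hA']
      abel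
    have h0 : ∀ v ∈ S, (A - A') *ᵥ p v = b' - b := by
      intro v hv
      have := h v hv
      rw [Matrix.sub_mulVec]
      have h1 : A *ᵥ p v = A' *ᵥ p v + b' - b := by
        rw [← this]; simp
      rw [h1]
      abel
    have hAA : A - A' = 0 := by
      refine skew_zero hB (Submodule.span ℝ (Set.range fun i : {i // i ≠ i0} =>
        (p (x i) -ᵥ p (x i0) : Fin d → ℝ))) ?_ ?_
      · rw [finrank_span_eq_card hai]
        simp [Fintype.card_subtype_compl]
        omega
      · intro w hw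
        induction hw using Submodule.span_induction with
        | mem w hw =>
          obtain ⟨i, rfl⟩ := hw
          simp only [vsub_eq_sub, Matrix.mulVec_sub]
          rw [h0 _ (hxS _), h0 _ (hxS _), sub_self]
        | zero => simp
        | add a b _ _ ha hb => rw [Matrix.mulVec_add, ha, hb, add_zero]
        | smul r a _ ha => rw [Matrix.mulVec_smul, ha, smul_zero]
    refine ⟨sub_eq_zero.1 hAA, ?_⟩
    have h2 := h0 (x i0) (hxS i0)
    rw [hAA] at h2
    have h3 : b' - b = 0 := by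
      rw [← h2]; simp
    exact (sub_eq_zero.1 h3).symm

end Pool.Agent.H283R2.DR
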