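import Mathlib
import Pool.Agent.H283R2.DR.Defs

set_option autoImplicit false

/-!
Task C: complete bipartite graphs and complete graphs are generically rigid.
-/

namespace Pool.Agent.H283R2.DR

open Matrix Finset

namespace TaskC

/-- the origin and the unit vectors -/
def pos (d : ℕ) : Option (Fin d) → Fin d → ℝ
  | none => 0
  | some j => Pi.single j 1

theorem bip_core {ι : Type*} {d : ℕ} (a0 : Fin d → ℝ) (a : Fin d → Fin d → ℝ)
    (x Q : ι → Fin d → ℝ) (H0 : ∀ y, x y ⬝ᵥ (Q y - a0) = 0)
    (H1 : ∀ y j, (x y - Pi.single j 1) ⬝ᵥ (Q y - a j) = 0)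
    (E2 : ∀ i j, ∃ y, x y = Pi.single i 1 + Pi.single j 1) :
    ∃ (A : Matrix (Fin d) (Fin d) ℝ) (b : Fin d → ℝ), Aᵀ = -A ∧ (∀ y, Q y = A *ᵥ x y + b) ∧
      a0 = b ∧ ∀ j, a j = A *ᵥ (Pi.single j 1) + b := by
  set A : Matrix (Fin d) (Fin d) ℝ := Matrix.of (fun j k => a0 k - a j k) with hA
  have hAv : ∀ j k, A j k = a0 k - a j k := fun j k => rfl
  have hQ : ∀ y j, Q y j = (A *ᵥ x y) j + a j j := by
    intro y j
    have h0 := H0 y
    have h1 := H1 y j
    have e1 : (A *ᵥ x y) j = x y ⬝ᵥ a0 - x y ⬝ᵥ a j := by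
      simp only [Matrix.mulVec, dotProduct, hAv]
      rw [← Finset.sum_sub_distrib]
      exact Finset.sum_congr rfl fun k _ => by ring
    rw [dotProduct_sub] at h0
    rw [sub_dotProduct, dotProduct_sub, dotProduct_sub, single_dotProduct,
      single_dotProduct] at h1
    rw [e1]
    linarith
  have hmul : ∀ i j k, (A *ᵥ (Pi.single i 1 + Pi.single j 1 : Fin d → ℝ)) k = A k i + A k j := by
    intro i j k
    rw [Matrix.mulVec_add]
    simp
  have hsum : ∀ i j, A i i + A i j + a i i - a0 i + (A j i + A j j + a j j - a0 j) = 0 := by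
    intro i j
    obtain ⟨y, hy⟩ := E2 i j
    have h0 := H0 y
    rw [hy, add_dotProduct, single_dotProduct, single_dotProduct] at h0
    simp only [Pi.sub_apply, one_mul] at h0
    rw [hQ y i, hQ y j, hy, hmul, hmul] at h0
    linarith
  have hii : ∀ i, A i i = 0 := by
    intro i
    have h := hsum i i
    have h2 := hAv i i
    linarith
  have hdiag : ∀ i, a i i = a0 i := by
    intro i
    have h1 := hii i
    rw [hAv] at h1
    linarith
  have hskew : ∀ i j, A i j + A j i = 0 := by
    intro i j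
    have h := hsum i j
    rw [hii i, hii j, hdiag i, hdiag j] at h
    linarith
  refine ⟨A, a0, ?_, ?_, rfl, ?_⟩
  · ext i j
    rw [Matrix.transpose_apply, Matrix.neg_apply]
    linarith [hskew i j]
  · intro y
    funext j
    rw [hQ y j, hdiag j]
    rfl
  · intro j
    funext k
    have e : (A *ᵥ (Pi.single j 1 : Fin d → ℝ)) k = A k j := by simp
    rw [Pi.add_apply, e]
    linarith [hskew k j, hAv j k]

theorem complete_core {V : Type*} {d : ℕ} (G : SimpleGraph V) (U : Finset V)
    (hU : ∀ u ∈ U, ∀ v ∈ U, u ≠ v → G.Adj u v) (ψ : V → Option (Fin d)) (r0 : V) (hr0 : r0 ∈ U)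
    (hψ0 : ψ r0 = none)
    (hc : (∀ u ∈ U, ∀ v ∈ U, ψ u = ψ v → u = v) ∨ (∀ j, ∃ u ∈ U, ψ u = some j)) :
    RigidOn G (↑U : Set V) (fun v => pos d (ψ v)) := by
  classical
  intro q hq
  have hedge : ∀ u ∈ U, ∀ v ∈ U, (pos d (ψ u) - pos d (ψ v)) ⬝ᵥ (q u - q v) = 0 := by
    intro u hu v hv
    by_cases h : u = v
    · rw [h]; simp
    · exact hq u hu v hv (hU u hu v hv h)
  set b : Fin d → ℝ := q r0 with hb
  set r : Fin d → V := fun j => if h : ∃ u ∈ U, ψ u = some j then h.choose else r0 with hr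
  have hrU : ∀ j, r j ∈ U := by
    intro j
    simp only [hr]
    split_ifs with h
    · exact h.choose_spec.1
    · exact hr0
  have hrψ : ∀ j, (∃ u ∈ U, ψ u = some j) → ψ (r j) = some j := by
    intro j h
    simp only [hr]
    rw [dif_pos h]
    exact h.choose_spec.2
  set A : Matrix (Fin d) (Fin d) ℝ := Matrix.of (fun i j =>
    if (∃ u ∈ U, ψ u = some j) then q (r j) i - b i
    else if (∃ u ∈ U, ψ u = some i) then -(q (r i) j - b j) else 0) with hA
  have hAv : ∀ i j, A i j = if (∃ u ∈ U, ψ u = some j) then q (r j) i - b i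
    else if (∃ u ∈ U, ψ u = some i) then -(q (r i) j - b j) else 0 := fun i j => rfl
  -- the edges at the origin
  have hdiag : ∀ i, (∃ u ∈ U, ψ u = some i) → q (r i) i - b i = 0 := by
    intro i hi
    have h := hedge (r i) (hrU i) r0 hr0
    rw [hrψ i hi, hψ0] at h
    simp only [pos, sub_zero, single_dotProduct, one_mul, Pi.sub_apply] at h
    exact h
  have hoff : ∀ i j, (∃ u ∈ U, ψ u = some i) → (∃ u ∈ U, ψ u = some j) →
      (q (r j) i - b i) + (q (r i) j - b j) = 0 := by
    intro i j hi hj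
    have h := hedge (r i) (hrU i) (r j) (hrU j)
    rw [hrψ i hi, hrψ j hj] at h
    simp only [pos, sub_dotProduct, single_dotProduct, one_mul, Pi.sub_apply] at h
    have h1 := hdiag i hi
    have h2 := hdiag j hj
    linarith
  have hskew : ∀ i j, A j i = -A i j := by
    intro i j
    rw [hAv, hAv]
    by_cases hi : ∃ u ∈ U, ψ u = some i
    · by_cases hj : ∃ u ∈ U, ψ u = some j
      · rw [if_pos hi, if_pos hj]
        linarith [hoff i j hi hj]
      · rw [if_pos hi, if_neg hj, if_pos hi]
        ring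
    · by_cases hj : ∃ u ∈ U, ψ u = some j
      · rw [if_neg hi, if_pos hj, if_pos hj]
      · rw [if_neg hi, if_neg hj, if_neg hj, if_neg hi]
        ring
  have hAT : Aᵀ = -A := by
    ext i j
    rw [Matrix.transpose_apply, Matrix.neg_apply]
    exact hskew i j
  -- the representatives
  have hrep : ∀ j, (∃ u ∈ U, ψ u = some j) → q (r j) = A *ᵥ pos d (some j) + b := by
    intro j hj
    funext i
    have e : (A *ᵥ (Pi.single j 1 : Fin d → ℝ)) i = A i j := by simp
    simp only [pos]
    rw [Pi.add_apply, e, hAv, if_pos hj]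
    ring
  have hrep0 : q r0 = A *ᵥ pos d none + b := by
    simp [pos, hb]
  refine ⟨A, b, hAT, ?_⟩
  intro v hv
  have hv' : v ∈ U := hv
  rcases hc with hinj | hsurj
  · rcases hψv : ψ v with _ | j
    · have : v = r0 := hinj v hv' r0 hr0 (by rw [hψv, hψ0])
      simp only [hψv]
      rw [this]
      exact hrep0
    · have hj : ∃ u ∈ U, ψ u = some j := ⟨v, hv', hψv⟩
      have : r j = v := hinj (r j) (hrU j) v hv' (by rw [hrψ j hj, hψv])
      simp only [hψv]
      rw [← this]
      exact hrep j hj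
  · -- trivial motions
    have hquad : ∀ x : Fin d → ℝ, x ⬝ᵥ (A *ᵥ x) = 0 := by
      intro x
      have h1 : x ⬝ᵥ (A *ᵥ x) = x ⬝ᵥ (Aᵀ *ᵥ x) := by
        rw [Matrix.dotProduct_mulVec, Matrix.mulVec_transpose, dotProduct_comm]
      rw [hAT, Matrix.neg_mulVec, dotProduct_neg] at h1
      linarith
    have hz : ∀ w ∈ U, q w = A *ᵥ pos d (ψ w) + b →
        (pos d (ψ v) - pos d (ψ w)) ⬝ᵥ (q v - (A *ᵥ pos d (ψ v) + b)) = 0 := by
      intro w hw hqw
      have h := hedge v hv' w hw
      have h2 := hquad (pos d (ψ v) - pos d (ψ w))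
      have e : q v - (A *ᵥ pos d (ψ v) + b) =
          (q v - q w) - A *ᵥ (pos d (ψ v) - pos d (ψ w)) := by
        rw [hqw, Matrix.mulVec_sub]
        abel
      rw [e, dotProduct_sub, h, h2, sub_zero]
    have hzero := hz r0 hr0 (by rw [hψ0]; exact hrep0)
    rw [← sub_eq_zero]
    funext j
    have hj := hsurj j
    have h1 := hz (r j) (hrU j) (by rw [hrψ j hj]; exact hrep j hj)
    have e0 : pos d none = 0 := rfl
    have e1 : pos d (some j) = Pi.single j 1 := rfl
    rw [hψ0, e0, sub_zero] at hzero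
    rw [hrψ j hj, e1, sub_dotProduct, single_dotProduct, one_mul] at h1
    have : (q v - (A *ᵥ pos d (ψ v) + b)) j = 0 := by linarith
    exact this

end TaskC

open TaskC in
/-- Task C1: complete bipartite graphs `K_{Z,Y}` with `|Z| = d+1`, `|Y| ≥ d^2+d` are rigid. -/
theorem rigid_bipartite {V : Type*} [DecidableEq V] {d : ℕ} {p : V → Fin d → ℝ} (hp : Gen p)
    (G : SimpleGraph V) (Z Y : Finset V) (hZ : Z.card = d + 1) (hY : d * d + d ≤ Y.card)
    (hadj : ∀ z ∈ Z, ∀ y ∈ Y, G.Adj z y) : RigidOn G (↑(Z ∪ Y) : Set V) p := by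
  classical
  have hdisj : ∀ v ∈ Z, v ∉ Y := fun v h1 h2 => (hadj v h1 v h2).ne rfl
  have hc1 : Fintype.card Z = Fintype.card (Option (Fin d)) := by simp [hZ]
  let φ : Z ≃ Option (Fin d) := Fintype.equivOfCardEq hc1
  have hc2 : Fintype.card (Fin d × Fin d) ≤ Fintype.card Y := by
    simp only [Fintype.card_prod, Fintype.card_fin, Fintype.card_coe]
    omega
  obtain ⟨f⟩ := Function.Embedding.nonempty_of_card_le hc2
  set posY : Y → Fin d → ℝ := fun y => if h : ∃ s, f s = y then
    Pi.single h.choose.1 1 + Pi.single h.choose.2 1 else 0 with hposY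
  set p' : V → Fin d → ℝ := fun v => if hz : v ∈ Z then pos d (φ ⟨v, hz⟩) else
    if hy : v ∈ Y then posY ⟨v, hy⟩ else 0 with hp'
  have hpz : ∀ z : Z, p' z = pos d (φ z) := by
    intro z
    simp only [hp']
    rw [dif_pos z.2]
  have hpy : ∀ y : Y, p' y = posY y := by
    intro y
    simp only [hp']
    rw [dif_neg (fun h => hdisj _ h y.2), dif_pos y.2]
  apply hp.rigid G _ p'
  intro q hq
  have hq' : ∀ y : Y, ∀ z : Z, (posY y - pos d (φ z)) ⬝ᵥ (q y - q z) = 0 := by
    intro y z
    rw [← hpz, ← hpy]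
    exact hq y (by simp) z (by simp) (hadj z z.2 y y.2).symm
  obtain ⟨A, b, hA, hQ, h0, h1⟩ := bip_core (q (φ.symm none)) (fun j => q (φ.symm (some j))) posY
    (fun y => q y) (by
      intro y
      have h := hq' y (φ.symm none)
      rw [Equiv.apply_symm_apply] at h
      simpa [pos] using h) (by
      intro y j
      have h := hq' y (φ.symm (some j))
      rw [Equiv.apply_symm_apply] at h
      simpa [pos] using h) (by
      intro i j
      refine ⟨f (i, j), ?_⟩
      simp only [hposY]
      have hex : ∃ s, f s = f (i, j) := ⟨_, rfl⟩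
      rw [dif_pos hex]
      have : hex.choose = (i, j) := f.injective hex.choose_spec
      rw [this])
  refine ⟨A, b, hA, ?_⟩
  intro v hv
  have hv' : v ∈ Z ∪ Y := hv
  rcases Finset.mem_union.1 hv' with hz | hy
  · have e := hpz ⟨v, hz⟩
    simp only at e
    rw [e]
    rcases hφ : φ ⟨v, hz⟩ with _ | j
    · have : φ.symm none = ⟨v, hz⟩ := by rw [← hφ, Equiv.symm_apply_apply]
      rw [this] at h0
      simp only at h0
      rw [h0]
      simp [pos]
    · have : φ.symm (some j) = ⟨v, hz⟩ := by rw [← hφ, Equiv.symm_apply_apply]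
      have h2 := h1 j
      simp only [this] at h2
      rw [h2]
      rfl
  · have e := hpy ⟨v, hy⟩
    simp only at e
    rw [e]
    exact hQ ⟨v, hy⟩

open TaskC in
/-- Task C2: complete graphs are rigid. -/
theorem rigid_complete {V : Type*} {d : ℕ} {p : V → Fin d → ℝ} (hp : Gen p)
    (G : SimpleGraph V) (U : Finset V) (hU : ∀ u ∈ U, ∀ v ∈ U, u ≠ v → G.Adj u v) :
    RigidOn G (↑U : Set V) p := by
  classical
  rcases U.eq_empty_or_nonempty with hempty | ⟨r0, hr0⟩
  · intro q _
    refine ⟨0, 0, by simp, ?_⟩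
    intro v hv
    rw [hempty] at hv
    simp at hv
  rcases le_total U.card (d + 1) with hle | hge
  · have hc : Fintype.card (U.erase r0) ≤ Fintype.card (Fin d) := by
      simp only [Fintype.card_coe, Fintype.card_fin, Finset.card_erase_of_mem hr0]
      omega
    obtain ⟨f⟩ := Function.Embedding.nonempty_of_card_le hc
    set ψ : V → Option (Fin d) := fun v => if h : v ∈ U.erase r0 then some (f ⟨v, h⟩) else none
      with hψ
    have hψ0 : ψ r0 = none := by
      simp [hψ]
    have hψ1 : ∀ v ∈ U, v ≠ r0 → ∃ h : v ∈ U.erase r0, ψ v = some (f ⟨v, h⟩) := by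
      intro v hv hne
      have h : v ∈ U.erase r0 := Finset.mem_erase.2 ⟨hne, hv⟩
      exact ⟨h, by simp only [hψ]; rw [dif_pos h]⟩
    apply hp.rigid G _ _ (complete_core G U hU ψ r0 hr0 hψ0 (Or.inl ?_))
    intro u hu v hv huv
    by_cases h1 : u = r0
    · by_cases h2 : v = r0
      · rw [h1, h2]
      · obtain ⟨_, h3⟩ := hψ1 v hv h2
        rw [h1, hψ0, h3] at huv
        simp at huv
    · obtain ⟨_, h3⟩ := hψ1 u hu h1
      by_cases h2 : v = r0
      · rw [h2, hψ0, h3] at huv
        simp at huv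
      · obtain ⟨_, h4⟩ := hψ1 v hv h2
        rw [h3, h4, Option.some.injEq] at huv
        have := f.injective huv
        simpa using this
  · have hc : Fintype.card (Option (Fin d)) ≤ Fintype.card U := by
      simp only [Fintype.card_option, Fintype.card_coe, Fintype.card_fin]
      omega
    obtain ⟨f⟩ := Function.Embedding.nonempty_of_card_le hc
    set ψ : V → Option (Fin d) := fun v => if h : ∃ x, (f x : V) = v then h.choose else none
      with hψ
    have hψf : ∀ x, ψ (f x) = x := by
      intro x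
      have hex : ∃ x', (f x' : V) = f x := ⟨x, rfl⟩
      simp only [hψ]
      rw [dif_pos hex]
      exact f.injective (Subtype.ext hex.choose_spec)
    exact hp.rigid G _ _ (complete_core G U hU ψ (f none) (f none).2 (hψf none)
      (Or.inr fun j => ⟨f (some j), (f (some j)).2, hψf (some j)⟩))

end Pool.Agent.H283R2.DR
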