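import Mathlib
import Pool.Agent.H283R2.DR.Defs
import Pool.Agent.H283R2.DR.Skew
import Pool.Agent.H283R2.DR.TaskC

set_option autoImplicit false

/-! Gluing, and reduction to pairs. -/

namespace Pool.Agent.H283R2.DR

open Matrix Finset Module

variable {V : Type*} {d : ℕ} {p : V → Fin d → ℝ}

/-- Gluing two rigid subframeworks along `d` vertices. -/
theorem glue [DecidableEq V] (hp : Gen p) {G : SimpleGraph V} {U U' : Finset V}
    (h : RigidOn G (↑U : Set V) p) (h' : RigidOn G (↑U' : Set V) p) (hc : d ≤ (U ∩ U').card) :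
    RigidOn G (↑(U ∪ U') : Set V) p := by
  intro q hq
  obtain ⟨A, b, hA, hb⟩ := h q (by
    intro u hu v hv huv
    exact hq u (by simp at hu ⊢; exact Or.inl hu) v (by simp at hv ⊢; exact Or.inl hv) huv)
  obtain ⟨A', b', hA', hb'⟩ := h' q (by
    intro u hu v hv huv
    exact hq u (by simp at hu ⊢; exact Or.inr hu) v (by simp at hv ⊢; exact Or.inr hv) huv)
  obtain ⟨h1, h2⟩ := triv_unique hp hc hA hA' (by
    intro v hv
    rw [Finset.mem_inter] at hv
    rw [← hb v (by exact_mod_cast hv.1), ← hb' v (by exact_mod_cast hv.2)])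
  refine ⟨A, b, hA, ?_⟩
  intro v hv
  rw [Finset.mem_coe, Finset.mem_union] at hv
  rcases hv with hv | hv
  · exact hb v (by exact_mod_cast hv)
  · rw [hb' v (by exact_mod_cast hv), h1, h2]

/-- If any two vertices lie in a rigid subframework then the whole framework is rigid. -/
theorem rigid_of_pairs [Fintype V] (hp : Gen p) {G : SimpleGraph V}
    (h : ∀ u v : V, ∃ U : Finset V, u ∈ U ∧ v ∈ U ∧ RigidOn G (↑U : Set V) p) :
    RigidOn G Set.univ p := by
  intro q hq
  have h1 := rigid_complete hp (⊤ : SimpleGraph V) Finset.univ (by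
    intro u _ v _ huv
    simpa using huv)
  obtain ⟨A, b, hA, hb⟩ := h1 q (by
    intro u _ v _ _
    obtain ⟨U, hu, hv, hU⟩ := h u v
    obtain ⟨A, b, hA, hb⟩ := hU q (by
      intro x _ y _ hxy
      exact hq x trivial y trivial hxy)
    rw [hb u (by exact_mod_cast hu), hb v (by exact_mod_cast hv), add_sub_add_right_eq_sub,
      ← Matrix.mulVec_sub]
    exact skew_dot_self hA _)
  exact ⟨A, b, hA, fun v _ => hb v (by simp)⟩

end Pool.Agent.H283R2.DR
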