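import Mathlib

set_option autoImplicit false

/-! Finitely many functionals have the same common kernel as few of them. -/

namespace Pool.Agent.H283R2.DR

open Module

/-- Among functionals `ℓ e` on a finite-dimensional space `X`, at most `dim X` of them already cut
out the common kernel. -/
theorem exists_few_functionals {X E : Type*} [AddCommGroup X] [Module ℝ X] [FiniteDimensional ℝ X]
    [DecidableEq E] (F : Finset E) (l : E → (X →ₗ[ℝ] ℝ)) :
    ∃ F0 : Finset E, F0 ⊆ F ∧ F0.card ≤ finrank ℝ X ∧
      ∀ x : X, (∀ e ∈ F0, l e x = 0) → ∀ e ∈ F, l e x = 0 := by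
  classical
  obtain ⟨b, hbs, hspan, hli⟩ := exists_linearIndependent ℝ (l '' (F : Set E))
  have hbfin : b.Finite := (F.finite_toSet.image l).subset hbs
  have hcard : hbfin.toFinset.card ≤ finrank ℝ X := by
    have h1 : Fintype b := hbfin.fintype
    have h2 := hli.fintype_card_le_finrank
    rw [← Subspace.dual_finrank_eq (K := ℝ) (V := X)]
    have h3 : hbfin.toFinset.card = Fintype.card b := by
      rw [Set.Finite.card_toFinset]
    rw [h3]
    exact h2
  have hch : ∀ φ ∈ hbfin.toFinset, ∃ e, e ∈ F ∧ l e = φ := by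
    intro φ hφ
    have : φ ∈ b := by simpa using hφ
    obtain ⟨e, he, hle⟩ := hbs this
    exact ⟨e, by simpa using he, hle⟩
  choose g hg1 hg2 using hch
  refine ⟨hbfin.toFinset.attach.image (fun φ => g φ.1 φ.2), ?_, ?_, ?_⟩
  · intro e he
    obtain ⟨φ, -, rfl⟩ := Finset.mem_image.1 he
    exact hg1 φ.1 φ.2
  · refine le_trans Finset.card_image_le ?_
    rw [Finset.card_attach]
    exact hcard
  · intro x hx e he
    have h1 : l e ∈ Submodule.span ℝ b := by
      rw [hspan]
      exact Submodule.subset_span ⟨e, by simpa using he, rfl⟩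
    have h2 : ∀ φ ∈ b, φ x = 0 := by
      intro φ hφ
      have hφ' : φ ∈ hbfin.toFinset := by simpa using hφ
      have := hx (g φ hφ') (Finset.mem_image.2 ⟨⟨φ, hφ'⟩, Finset.mem_attach _ _, rfl⟩)
      rw [hg2 φ hφ'] at this
      exact this
    have h3 : Submodule.span ℝ b ≤ LinearMap.ker (LinearMap.applyₗ x : (X →ₗ[ℝ] ℝ) →ₗ[ℝ] ℝ) := by
      rw [Submodule.span_le]
      intro φ hφ
      simp [h2 φ hφ]
    have h4 := h3 h1
    simpa using h4

end Pool.Agent.H283R2.DR
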