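import Mathlib
import Pool.Agent.H283R2.DR.Defs
import Pool.Agent.H283R2.DR.LinAlg
import Pool.Agent.H283R2.DR.Skew

set_option autoImplicit false

/-! The general principle: a rigid graph covered by few bounded-size certificates is rigid on a
small set. -/

namespace Pool.Agent.H283R2.DR

open Matrix Finset Module

section

variable {V : Type*} [DecidableEq V] {d : ℕ} {ι : Type*}

/-- the extension map -/
noncomputable def ext (p : V → Fin d → ℝ) (W : Finset V) (f : V → ι) :
    ((ι → (Matrix (Fin d) (Fin d) ℝ × (Fin d → ℝ))) × (W → Fin d → ℝ)) →ₗ[ℝ] (V → Fin d → ℝ) where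
  toFun x v := if h : v ∈ W then x.2 ⟨v, h⟩ else (x.1 (f v)).1 *ᵥ p v + (x.1 (f v)).2
  map_add' x y := by
    funext v
    by_cases h : v ∈ W
    · simp [h]
    · simp only [h, dite_false, Prod.fst_add, Pi.add_apply, Prod.snd_add, Matrix.add_mulVec]
      abel
  map_smul' r x := by
    funext v
    by_cases h : v ∈ W
    · simp [h]
    · simp only [h, dite_false, Prod.smul_fst, Pi.smul_apply, Prod.smul_snd, Matrix.smul_mulVec,
        RingHom.id_apply, smul_add]

/-- the edge functional -/
noncomputable def edgeFun (p : V → Fin d → ℝ) (W : Finset V) (f : V → ι) (e : V × V) :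
    ((ι → (Matrix (Fin d) (Fin d) ℝ × (Fin d → ℝ))) × (W → Fin d → ℝ)) →ₗ[ℝ] ℝ where
  toFun x := (p e.1 - p e.2) ⬝ᵥ (ext p W f x e.1 - ext p W f x e.2)
  map_add' x y := by
    simp only [map_add, Pi.add_apply, dotProduct_sub, dotProduct_add]
    ring
  map_smul' r x := by
    simp only [map_smul, Pi.smul_apply, RingHom.id_apply, ← smul_sub, dotProduct_smul, smul_eq_mul]

end

/-- the general principle. -/
theorem principle {V : Type*} [Fintype V] [DecidableEq V] {d : ℕ} {p : V → Fin d → ℝ}
    (hp : Gen p) (G : SimpleGraph V) (hG : RigidOn G Set.univ p)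
    {ι : Type*} [Fintype ι] (C : ι → Finset V) (c s : ℕ) (hc : ∀ i, (C i).card ≤ c)
    (W : Finset V) (f : V → ι) (R : V → Finset V)
    (hC : ∀ v, v ∉ W → d ≤ (C (f v)).card)
    (hR : ∀ v, v ∉ W → v ∈ R v ∧ C (f v) ⊆ R v ∧ (R v).card ≤ s ∧ RigidOn G (↑(R v) : Set V) p)
    (u v : V) : ∃ U : Finset V, u ∈ U ∧ v ∈ U ∧
      U.card ≤ W.card + s * (c * Fintype.card ι +
        2 * (Fintype.card ι * (d * d + d) + d * W.card) + 2) ∧
      RigidOn G (↑U : Set V) p := by
  classical
  obtain ⟨F0, hF0, hF0c, hF0k⟩ := exists_few_functionals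
    (univ.filter (fun e : V × V => G.Adj e.1 e.2)) (edgeFun p W f)
  have hdim : finrank ℝ ((ι → (Matrix (Fin d) (Fin d) ℝ × (Fin d → ℝ))) × (W → Fin d → ℝ)) =
      Fintype.card ι * (d * d + d) + d * W.card := by
    rw [Module.finrank_prod, Module.finrank_pi_fintype, Module.finrank_pi_fintype]
    simp [Module.finrank_prod, Module.finrank_matrix]
    ring
  rw [hdim] at hF0c
  set P : Finset V := univ.biUnion C ∪ (F0.image Prod.fst ∪ F0.image Prod.snd ∪ {u, v}) with hP
  set U : Finset V := W ∪ (P \ W).biUnion R with hU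
  have hPU : ∀ x ∈ P, x ∈ U := by
    intro x hx
    rw [hU, Finset.mem_union]
    by_cases hW : x ∈ W
    · exact Or.inl hW
    · right
      rw [Finset.mem_biUnion]
      exact ⟨x, Finset.mem_sdiff.2 ⟨hx, hW⟩, (hR x hW).1⟩
  have hRU : ∀ x ∈ P, x ∉ W → ∀ y ∈ R x, y ∈ U := by
    intro x hx hW y hy
    rw [hU, Finset.mem_union]
    right
    rw [Finset.mem_biUnion]
    exact ⟨x, Finset.mem_sdiff.2 ⟨hx, hW⟩, hy⟩
  have hcardP : P.card ≤ c * Fintype.card ι +
        2 * (Fintype.card ι * (d * d + d) + d * W.card) + 2 := by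
    have h1 : (univ.biUnion C).card ≤ Fintype.card ι * c := by
      refine le_trans Finset.card_biUnion_le ?_
      refine le_trans (Finset.sum_le_sum (fun i _ => hc i)) ?_
      simp
    have h2 : (F0.image Prod.fst).card ≤ F0.card := Finset.card_image_le
    have h3 : (F0.image Prod.snd).card ≤ F0.card := Finset.card_image_le
    have h4 : ({u, v} : Finset V).card ≤ 2 := Finset.card_le_two
    have h5 : P.card ≤ (univ.biUnion C).card +
        ((F0.image Prod.fst).card + (F0.image Prod.snd).card + ({u, v} : Finset V).card) := by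
      refine le_trans (Finset.card_union_le _ _) ?_
      refine Nat.add_le_add_left ?_ _
      refine le_trans (Finset.card_union_le _ _) ?_
      refine Nat.add_le_add_right ?_ _
      exact Finset.card_union_le _ _
    nlinarith
  refine ⟨U, hPU u (by simp [hP]), hPU v (by simp [hP]), ?_, ?_⟩
  · refine le_trans (Finset.card_union_le _ _) ?_
    refine Nat.add_le_add_left ?_ _
    refine le_trans Finset.card_biUnion_le ?_
    refine le_trans (Finset.sum_le_sum (g := fun _ => s) ?_) ?_
    · intro x hx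
      exact (hR x (Finset.mem_sdiff.1 hx).2).2.2.1
    · rw [Finset.sum_const, smul_eq_mul, mul_comm]
      refine Nat.mul_le_mul_left _ ?_
      exact le_trans (Finset.card_le_card Finset.sdiff_subset) hcardP
  · intro q hq
    have hloc : ∀ x, ∃ (A : Matrix (Fin d) (Fin d) ℝ) (b : Fin d → ℝ), x ∈ P → x ∉ W →
        Aᵀ = -A ∧ ∀ y ∈ R x, q y = A *ᵥ p y + b := by
      intro x
      by_cases hx : x ∈ P ∧ x ∉ W
      · obtain ⟨hxP, hxW⟩ := hx
        obtain ⟨A, b, hA, hb⟩ := (hR x hxW).2.2.2 q (by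
          intro y hy z hz hyz
          exact hq y (by exact_mod_cast hRU x hxP hxW y (by exact_mod_cast hy)) z
            (by exact_mod_cast hRU x hxP hxW z (by exact_mod_cast hz)) hyz)
        exact ⟨A, b, fun _ _ => ⟨hA, fun y hy => hb y (by exact_mod_cast hy)⟩⟩
      · refine ⟨0, 0, fun h1 h2 => ?_⟩
        exact absurd ⟨h1, h2⟩ hx
    choose A b hAb using hloc
    have huniq : ∀ x ∈ P, x ∉ W → ∀ x' ∈ P, x' ∉ W → f x = f x' → A x = A x' ∧ b x = b x' := by
      intro x hx hxW x' hx' hxW' hff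
      obtain ⟨hA1, hb1⟩ := hAb x hx hxW
      obtain ⟨hA2, hb2⟩ := hAb x' hx' hxW'
      refine triv_unique hp (hC x hxW) hA1 hA2 ?_
      intro y hy
      rw [← hb1 y ((hR x hxW).2.1 hy), ← hb2 y ((hR x' hxW').2.1 (hff ▸ hy))]
    let T : ι → (Matrix (Fin d) (Fin d) ℝ × (Fin d → ℝ)) := fun i =>
      if h : ∃ x, x ∈ P ∧ x ∉ W ∧ f x = i then (A h.choose, b h.choose) else 0
    have hT : ∀ x ∈ P, x ∉ W → T (f x) = (A x, b x) := by
      intro x hx hxW
      have h : ∃ x', x' ∈ P ∧ x' ∉ W ∧ f x' = f x := ⟨x, hx, hxW, rfl⟩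
      have hspec := h.choose_spec
      have h1 : T (f x) = (A h.choose, b h.choose) := by
        simp only [T]
        rw [dif_pos h]
      rw [h1]
      obtain ⟨h2, h3⟩ := huniq h.choose hspec.1 hspec.2.1 x hx hxW hspec.2.2
      rw [h2, h3]
    set q' : V → Fin d → ℝ := ext p W f (T, fun w => q w) with hq'
    have hq'W : ∀ w ∈ W, q' w = q w := by
      intro w hw
      simp [hq', ext, hw]
    have hq'P : ∀ x ∈ P, q' x = q x := by
      intro x hx
      by_cases hxW : x ∈ W
      · exact hq'W x hxW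
      · have h1 : q' x = (T (f x)).1 *ᵥ p x + (T (f x)).2 := by
          simp [hq', ext, hxW]
        rw [h1, hT x hx hxW]
        exact ((hAb x hx hxW).2 x (hR x hxW).1).symm
    have hall := hF0k (T, fun w => q w) (by
      intro e he
      have h1 : e.1 ∈ P := by
        simp only [hP, Finset.mem_union, Finset.mem_image]
        right; left; left
        exact ⟨e, he, rfl⟩
      have h2 : e.2 ∈ P := by
        simp only [hP, Finset.mem_union, Finset.mem_image]
        right; left; right
        exact ⟨e, he, rfl⟩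
      have hadj : G.Adj e.1 e.2 := by
        have := hF0 he
        simpa using this
      have h3 := hq e.1 (by exact_mod_cast hPU _ h1) e.2 (by exact_mod_cast hPU _ h2) hadj
      change (p e.1 - p e.2) ⬝ᵥ (q' e.1 - q' e.2) = 0
      rw [hq'P _ h1, hq'P _ h2]
      exact h3)
    obtain ⟨A0, b0, hA0, hb0⟩ := hG q' (by
      intro x _ y _ hxy
      exact hall (x, y) (by simpa using hxy))
    refine ⟨A0, b0, hA0, ?_⟩
    have hfin : ∀ x ∈ P, x ∉ W → A x = A0 ∧ b x = b0 := by
      intro x hx hxW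
      refine triv_unique hp (hC x hxW) (hAb x hx hxW).1 hA0 ?_
      intro y hy
      have hyP : y ∈ P := by
        simp only [hP, Finset.mem_union, Finset.mem_biUnion]
        left
        exact ⟨f x, Finset.mem_univ _, hy⟩
      rw [← (hAb x hx hxW).2 y ((hR x hxW).2.1 hy), ← hb0 y trivial, hq'P y hyP]
    intro y hy
    have hyU : y ∈ U := by exact_mod_cast hy
    rw [hU, Finset.mem_union, Finset.mem_biUnion] at hyU
    rcases hyU with hyW | ⟨x, hx, hyx⟩
    · rw [← hq'W y hyW]
      exact hb0 y trivial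
    · obtain ⟨hxP, hxW⟩ := Finset.mem_sdiff.1 hx
      obtain ⟨h1, h2⟩ := hfin x hxP hxW
      rw [(hAb x hxP hxW).2 y hyx, h1, h2]

end Pool.Agent.H283R2.DR
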