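import Pool.Agent.H283R2.DR.Skew
import Pool.Agent.H283R2.DR.Principle

set_option autoImplicit false

/-! Task F (helper911): graphs of bounded independence number. -/

namespace Pool.Agent.H283R2.DR

open Matrix Finset

namespace IL

/-- a crude Ramsey bound -/
theorem ramsey (a : ℕ) : ∀ s : ℕ, ∃ R : ℕ, ∀ (V : Type) (G : SimpleGraph V) (W : Finset V),
    (∀ C : Finset V, C ⊆ W → (∀ u ∈ C, ∀ v ∈ C, u ≠ v → G.Adj u v) → C.card ≠ s) →
    (∀ S : Finset V, S ⊆ W → (∀ u ∈ S, ∀ v ∈ S, ¬ G.Adj u v) → S.card ≤ a) → W.card ≤ R := by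
  classical
  induction a with
  | zero =>
    intro s
    refine ⟨0, fun V G W _ h => ?_⟩
    by_contra hW
    obtain ⟨w, hw⟩ : W.Nonempty := by
      rw [← Finset.card_pos]; omega
    have := h {w} (by simpa using hw) (by
      intro u hu v hv
      rw [mem_singleton] at hu hv
      subst hu; subst hv
      exact G.irrefl)
    simp at this
  | succ a iha =>
    intro s
    induction s with
    | zero =>
      refine ⟨0, fun V G W h _ => ?_⟩
      exact absurd rfl (h ∅ (by simp) (by simp))
    | succ s ihs =>
      obtain ⟨R1, h1⟩ := ihs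
      obtain ⟨R2, h2⟩ := iha (s + 1)
      refine ⟨1 + R1 + R2, fun V G W hc hi => ?_⟩
      by_cases hW : W.Nonempty
      · obtain ⟨w, hw⟩ := hW
        set N := W.filter (fun v => G.Adj w v) with hN
        set M := W.filter (fun v => v ≠ w ∧ ¬ G.Adj w v) with hM
        have hN1 : N.card ≤ R1 := by
          apply h1 V G N
          · intro C hC hcl hcard
            have hwC : w ∉ C := by
              intro h
              have := (mem_filter.1 (hC h)).2
              exact G.irrefl this
            apply hc (insert w C)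
            · intro v hv
              rw [mem_insert] at hv
              rcases hv with rfl | hv
              · exact hw
              · exact (mem_filter.1 (hC hv)).1
            · intro u hu v hv huv
              rw [mem_insert] at hu hv
              rcases hu with rfl | hu <;> rcases hv with rfl | hv
              · exact absurd rfl huv
              · exact (mem_filter.1 (hC hv)).2
              · exact (mem_filter.1 (hC hu)).2.symm
              · exact hcl u hu v hv huv
            · rw [card_insert_of_notMem hwC, hcard]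
          · intro S hS hSi
            exact hi S (hS.trans (filter_subset _ _)) hSi
        have hM1 : M.card ≤ R2 := by
          apply h2 V G M
          · intro C hC hcl hcard
            exact hc C (hC.trans (filter_subset _ _)) hcl hcard
          · intro S hS hSi
            have hwS : w ∉ S := by
              intro h
              exact (mem_filter.1 (hS h)).2.1 rfl
            have h3 := hi (insert w S) (by
              intro v hv
              rw [mem_insert] at hv
              rcases hv with rfl | hv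
              · exact hw
              · exact (mem_filter.1 (hS hv)).1) (by
              intro u hu v hv
              rw [mem_insert] at hu hv
              rcases hu with rfl | hu <;> rcases hv with rfl | hv
              · exact G.irrefl
              · exact (mem_filter.1 (hS hv)).2.2
              · exact fun h => (mem_filter.1 (hS hu)).2.2 h.symm
              · exact hSi u hu v hv)
            rw [card_insert_of_notMem hwS] at h3
            omega
        have hsub : W ⊆ insert w (N ∪ M) := by
          intro v hv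
          rw [mem_insert, mem_union, hN, hM, mem_filter, mem_filter]
          by_cases h : v = w
          · exact Or.inl h
          · by_cases h' : G.Adj w v
            · exact Or.inr (Or.inl ⟨hv, h'⟩)
            · exact Or.inr (Or.inr ⟨hv, h, h'⟩)
        calc W.card ≤ (insert w (N ∪ M)).card := card_le_card hsub
          _ ≤ (N ∪ M).card + 1 := card_insert_le _ _
          _ ≤ N.card + M.card + 1 := by
              have := card_union_le N M
              omega
          _ ≤ 1 + R1 + R2 := by omega
      · rw [not_nonempty_iff_eq_empty] at hW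
        rw [hW]; simp

theorem skew_dot {d : ℕ} (A : Matrix (Fin d) (Fin d) ℝ) (hA : Aᵀ = -A) (w : Fin d → ℝ) :
    w ⬝ᵥ (A *ᵥ w) = 0 := by
  have h : w ⬝ᵥ (A *ᵥ w) = - (w ⬝ᵥ (A *ᵥ w)) := by
    calc w ⬝ᵥ (A *ᵥ w) = (w ᵥ* A) ⬝ᵥ w := dotProduct_mulVec w A w
      _ = (Aᵀ *ᵥ w) ⬝ᵥ w := by rw [mulVec_transpose]
      _ = -((A *ᵥ w) ⬝ᵥ w) := by rw [hA, neg_mulVec, neg_dotProduct]
      _ = - (w ⬝ᵥ (A *ᵥ w)) := by rw [dotProduct_comm]
  linarith

theorem mono_set {V : Type*} {d : ℕ} {G : SimpleGraph V} {U U' : Set V} {p : V → Fin d → ℝ}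
    (h : RigidOn G U p) (hU : U = U') : RigidOn G U' p := hU ▸ h

/-- 0-extension -/
theorem extend {V : Type*} {d : ℕ} {p : V → Fin d → ℝ} (hp : Gen p) (G : SimpleGraph V)
    (U : Set V) (hU : RigidOn G U p) (v : V) (N : Finset V) (hN : d ≤ N.card)
    (hNU : ∀ u ∈ N, u ∈ U) (hadj : ∀ u ∈ N, G.Adj v u) : RigidOn G (insert v U) p := by
  classical
  intro q hq
  obtain ⟨A, b, hA, hb⟩ := hU q (fun u hu w hw h => hq u (Or.inr hu) w (Or.inr hw) h)
  refine ⟨A, b, hA, ?_⟩
  obtain ⟨N', hN', hcard⟩ := exists_subset_card_eq hN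
  have hvN : v ∉ N' := fun h => G.irrefl (hadj v (hN' h))
  let e : Fin d ≃ N' := (Fintype.equivFinOfCardEq (by simp [hcard])).symm
  let x : Fin (d + 1) → V := Fin.cons v (fun i => (e i : V))
  have hx : Function.Injective x := by
    rw [Fin.cons_injective_iff]
    refine ⟨?_, ?_⟩
    · rintro ⟨i, hi⟩
      exact hvN (hi ▸ (e i).2)
    · intro i j hij
      exact e.injective (Subtype.ext hij)
  have haff := hp.pos (d + 1) x le_rfl hx
  rw [affineIndependent_iff_linearIndependent_vsub ℝ _ (0 : Fin (d + 1))] at haff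
  set r : Fin d → ℝ := q v - (A *ᵥ p v + b) with hr
  have horth : ∀ i : {y : Fin (d + 1) // y ≠ 0}, (p (x i) -ᵥ p (x 0)) ⬝ᵥ r = 0 := by
    rintro ⟨i, hi⟩
    obtain ⟨j, rfl⟩ := Fin.exists_succ_eq.2 hi
    have hxj : x j.succ = (e j : V) := by simp [x]
    have hx0 : x 0 = v := by simp [x]
    simp only [hxj, hx0]
    set u : V := (e j : V) with hu
    have huN : u ∈ N := hN' (e j).2
    have h1 := hq v (Or.inl rfl) u (Or.inr (hNU u huN)) (hadj u huN)
    have h2 := hb u (hNU u huN)
    have h3 : q v - q u = r + A *ᵥ (p v - p u) := by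
      rw [hr, h2, mulVec_sub]
      abel
    rw [h3, dotProduct_add, skew_dot A hA, add_zero] at h1
    have h4 : (p u -ᵥ p v : Fin d → ℝ) = -(p v - p u) := by simp
    rw [h4, neg_dotProduct, h1, neg_zero]
  have hspan := haff.span_eq_top_of_card_eq_finrank' (by
    simp)
  have hall : ∀ w : Fin d → ℝ, w ⬝ᵥ r = 0 := by
    intro w
    have hw : w ∈ Submodule.span ℝ (Set.range fun i : {y : Fin (d + 1) // y ≠ 0} =>
        (p (x i) -ᵥ p (x 0) : Fin d → ℝ)) := by
      rw [hspan]; trivial
    induction hw using Submodule.span_induction with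
    | mem y hy =>
      obtain ⟨i, rfl⟩ := hy
      exact horth i
    | zero => simp
    | add y z _ _ hy hz => rw [add_dotProduct, hy, hz, add_zero]
    | smul c y _ hy => rw [smul_dotProduct, hy, smul_zero]
  have hr0 : r = 0 := by
    have := hall r
    exact dotProduct_self_eq_zero.1 this
  intro u hu
  rcases hu with rfl | hu
  · rw [hr, sub_eq_zero] at hr0
    exact hr0
  · exact hb u hu

theorem glue {V : Type*} {d : ℕ} {p : V → Fin d → ℝ} (hp : Gen p) (G : SimpleGraph V)
    (U U' : Set V) (hU : RigidOn G U p) (hU' : RigidOn G U' p) (S : Finset V) (hS : d ≤ S.card)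
    (hSU : ∀ u ∈ S, u ∈ U ∧ u ∈ U') : RigidOn G (U ∪ U') p := by
  intro q hq
  obtain ⟨A, b, hA, hb⟩ := hU q (fun u hu w hw h => hq u (Or.inl hu) w (Or.inl hw) h)
  obtain ⟨A', b', hA', hb'⟩ := hU' q (fun u hu w hw h => hq u (Or.inr hu) w (Or.inr hw) h)
  obtain ⟨h1, h2⟩ := triv_unique hp hS hA hA' (fun v hv => by
    rw [← hb v (hSU v hv).1, ← hb' v (hSU v hv).2])
  refine ⟨A, b, hA, ?_⟩
  rintro v (hv | hv)
  · exact hb v hv
  · rw [h1, h2]; exact hb' v hv

theorem extend_set {V : Type*} {d : ℕ} {p : V → Fin d → ℝ} (hp : Gen p) (G : SimpleGraph V)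
    (C : Finset V) (hC : RigidOn G (↑C : Set V) p) (T : Finset V)
    (hT : ∀ v ∈ T, v ∈ C ∨ ∃ N : Finset V, d ≤ N.card ∧ ∀ u ∈ N, u ∈ C ∧ G.Adj v u) :
    RigidOn G ((↑C : Set V) ∪ ↑T) p := by
  classical
  induction T using Finset.induction_on with
  | empty => simpa using hC
  | insert v T hv ih =>
    have h1 := ih (fun w hw => hT w (mem_insert_of_mem hw))
    rcases hT v (mem_insert_self v T) with h | ⟨N, hN, hN'⟩
    · apply mono_set h1
      ext w
      simp only [Set.mem_union, mem_coe, coe_insert, Set.mem_insert_iff]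
      constructor
      · rintro (h | h)
        · exact Or.inl h
        · exact Or.inr (Or.inr h)
      · rintro (h' | rfl | h')
        · exact Or.inl h'
        · exact Or.inl h
        · exact Or.inr h'
    · have h2 := extend hp G _ h1 v N hN (fun u hu => Or.inl (hN' u hu).1)
        (fun u hu => (hN' u hu).2)
      apply mono_set h2
      rw [coe_insert, Set.union_insert]

open Classical in
/-- `v` lies in `C` or has at least `d` neighbours in `C` -/
def Bad {V : Type*} (d : ℕ) (G : SimpleGraph V) (C : Finset V) (v : V) : Prop :=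
  v ∈ C ∨ d ≤ (C.filter (fun u => G.Adj v u)).card

def IsCl {V : Type*} (G : SimpleGraph V) (s : ℕ) (C : Finset V) : Prop :=
  C.card = s ∧ ∀ u ∈ C, ∀ v ∈ C, u ≠ v → G.Adj u v

open Classical in
theorem linked {V : Type*} {d : ℕ} {p : V → Fin d → ℝ} (hp : Gen p) (G : SimpleGraph V)
    (hrc : ∀ (U : Finset V), (∀ u ∈ U, ∀ v ∈ U, u ≠ v → G.Adj u v) → RigidOn G (↑U : Set V) p)
    (s : ℕ) (C C' : Finset V) (hC : IsCl G s C) (hC' : IsCl G s C')
    (h : d ≤ (C'.filter (fun v => Bad d G C v)).card) : RigidOn G (↑(C ∪ C') : Set V) p := by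
  have h1 := extend_set hp G C (hrc C hC.2) (C'.filter (fun v => Bad d G C v))
    (by
      intro v hv
      rw [mem_filter] at hv
      rcases hv.2 with h2 | h2
      · exact Or.inl h2
      · exact Or.inr ⟨_, h2, fun u hu => by rw [mem_filter] at hu; exact hu⟩)
  have h2 := glue hp G _ _ h1 (hrc C' hC'.2)
    (C'.filter (fun v => Bad d G C v)) h (by
      intro u hu
      exact ⟨Or.inr (by simpa using hu), by
        rw [mem_filter] at hu
        exact hu.1⟩)
  apply mono_set h2
  ext w
  simp only [Set.mem_union, mem_coe, mem_filter, coe_union]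
  tauto

open Classical in
/-- pairwise unlinked cliques: choose an independent set -/
theorem choose_indep {V : Type*} {d a : ℕ} (G : SimpleGraph V) (s : ℕ) (hs : 2 * a * d < s)
    (F : Finset (Finset V)) (hF : F.card = a + 1) (hcl : ∀ C ∈ F, IsCl G s C)
    (hun : ∀ C ∈ F, ∀ C' ∈ F, C ≠ C' → (C'.filter (fun v => Bad d G C v)).card < d) :
    ∀ F' ⊆ F, ∃ g : Finset V → V, (∀ C ∈ F', g C ∈ C) ∧
      (∀ C ∈ F', ∀ C' ∈ F, C' ≠ C → ¬ Bad d G C' (g C)) ∧
      ∀ C ∈ F', ∀ C' ∈ F', C ≠ C' → ¬ G.Adj (g C) (g C') := by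
  intro F'
  induction F' using Finset.induction_on with
  | empty =>
    intro _
    have hne : F.Nonempty := by rw [← Finset.card_pos]; omega
    obtain ⟨C, hC⟩ := hne
    have hCne : C.Nonempty := by rw [← Finset.card_pos, (hcl C hC).1]; omega
    exact ⟨fun _ => hCne.choose, by simp, by simp, by simp⟩
  | insert C0 F' hC0 ih =>
    intro hsub
    have hC0F : C0 ∈ F := hsub (mem_insert_self _ _)
    have hF'F : F' ⊆ F := fun C hC => hsub (mem_insert_of_mem hC)
    obtain ⟨g, hg1, hg2, hg3⟩ := ih hF'F
    -- the forbidden vertices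
    set X1 := (F.erase C0).biUnion (fun C' => C0.filter (fun v => Bad d G C' v)) with hX1
    set X2 := F'.biUnion (fun C => C0.filter (fun u => G.Adj (g C) u)) with hX2
    have hX1c : X1.card ≤ a * d := by
      calc X1.card ≤ ∑ C' ∈ F.erase C0, (C0.filter (fun v => Bad d G C' v)).card :=
            card_biUnion_le
        _ ≤ ∑ C' ∈ F.erase C0, d := by
            apply sum_le_sum
            intro C' hC'
            rw [mem_erase] at hC'
            exact (hun C' hC'.2 C0 hC0F hC'.1).le
        _ = a * d := by rw [sum_const, card_erase_of_mem hC0F, hF, smul_eq_mul]; rfl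
    have hX2c : X2.card ≤ a * d := by
      calc X2.card ≤ ∑ C ∈ F', (C0.filter (fun u => G.Adj (g C) u)).card :=
            card_biUnion_le
        _ ≤ ∑ C ∈ F', d := by
            apply sum_le_sum
            intro C hC
            have h1 := hg2 C hC C0 hC0F (fun h => hC0 (h ▸ hC))
            unfold Bad at h1
            rw [not_or, not_le] at h1
            exact h1.2.le
        _ = F'.card * d := by rw [sum_const, smul_eq_mul]
        _ ≤ a * d := by
            apply Nat.mul_le_mul_right
            have h1 : F' ⊆ F.erase C0 := fun C hC =>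
              mem_erase.2 ⟨fun h => hC0 (h ▸ hC), hF'F hC⟩
            have h2 := card_le_card h1
            rw [card_erase_of_mem hC0F, hF] at h2
            simpa using h2
    have hex : ∃ v ∈ C0, v ∉ X1 ∪ X2 := by
      by_contra hcon
      push Not at hcon
      have h1 : C0 ⊆ X1 ∪ X2 := hcon
      have h2 := card_le_card h1
      have h3 := card_union_le X1 X2
      rw [(hcl C0 hC0F).1] at h2
      have h4 : 2 * a * d = a * d + a * d := by ring
      omega
    obtain ⟨v, hv, hvX⟩ := hex
    rw [mem_union, not_or] at hvX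
    have hvX1 : ∀ C' ∈ F, C' ≠ C0 → ¬ Bad d G C' v := by
      intro C' hC' hne hB
      apply hvX.1
      rw [hX1, mem_biUnion]
      exact ⟨C', mem_erase.2 ⟨hne, hC'⟩, mem_filter.2 ⟨hv, hB⟩⟩
    have hvX2 : ∀ C ∈ F', ¬ G.Adj (g C) v := by
      intro C hC hB
      apply hvX.2
      rw [hX2, mem_biUnion]
      exact ⟨C, hC, mem_filter.2 ⟨hv, hB⟩⟩
    refine ⟨Function.update g C0 v, ?_, ?_, ?_⟩
    · intro C hC
      rw [mem_insert] at hC
      rcases hC with rfl | hC
      · rw [Function.update_self]; exact hv
      · have hne : C ≠ C0 := fun h => hC0 (h ▸ hC)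
        rw [Function.update_of_ne hne]; exact hg1 C hC
    · intro C hC C' hC' hne'
      rw [mem_insert] at hC
      rcases hC with rfl | hC
      · rw [Function.update_self]; exact hvX1 C' hC' hne'
      · have hne : C ≠ C0 := fun h => hC0 (h ▸ hC)
        rw [Function.update_of_ne hne]; exact hg2 C hC C' hC' hne'
    · intro C hC C' hC' hCC
      rw [mem_insert] at hC hC'
      rcases hC with rfl | hC
      · rcases hC' with rfl | hC'
        · exact absurd rfl hCC
        · have hne : C' ≠ C := fun h => hC0 (h ▸ hC')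
          rw [Function.update_self, Function.update_of_ne hne]
          exact fun h => hvX2 C' hC' h.symm
      · have hne : C ≠ C0 := fun h => hC0 (h ▸ hC)
        rcases hC' with rfl | hC'
        · rw [Function.update_self, Function.update_of_ne hne]
          exact hvX2 C hC
        · have hne' : C' ≠ C0 := fun h => hC0 (h ▸ hC')
          rw [Function.update_of_ne hne, Function.update_of_ne hne']
          exact hg3 C hC C' hC' hCC

open Classical in
theorem family_le {V : Type*} {d a : ℕ} (G : SimpleGraph V)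
    (hind : ∀ S : Finset V, (∀ u ∈ S, ∀ v ∈ S, ¬ G.Adj u v) → S.card ≤ a)
    (s : ℕ) (hs : 2 * a * d < s)
    (F : Finset (Finset V)) (hcl : ∀ C ∈ F, IsCl G s C)
    (hun : ∀ C ∈ F, ∀ C' ∈ F, C ≠ C' → (C'.filter (fun v => Bad d G C v)).card < d) :
    F.card ≤ a := by
  by_contra hcon
  push Not at hcon
  obtain ⟨F', hF', hcard⟩ := exists_subset_card_eq (show a + 1 ≤ F.card from hcon)
  obtain ⟨g, hg1, hg2, hg3⟩ := choose_indep G s hs F' hcard (fun C hC => hcl C (hF' hC))
    (fun C hC C' hC' h => hun C (hF' hC) C' (hF' hC') h) F' (Finset.Subset.refl _)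
  have hinj : Set.InjOn g (F' : Set (Finset V)) := by
    intro C hC C' hC' h
    by_contra hne
    have h1 := hg2 C hC C' hC' (fun h => hne h.symm)
    apply h1
    left
    rw [h]
    exact hg1 C' hC'
  have h2 := hind (F'.image g) (by
    intro u hu v hv
    rw [mem_image] at hu hv
    obtain ⟨C, hC, rfl⟩ := hu
    obtain ⟨C', hC', rfl⟩ := hv
    by_cases h : C = C'
    · subst h; exact G.irrefl
    · exact hg3 C hC C' hC' h)
  rw [card_image_of_injOn hinj, hcard] at h2
  omega

end IL

open IL

/-- Task F; `hrc` is `rigid_complete` (task C2). -/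
theorem indep_local_of (d a : ℕ) (hrc : ∀ (V : Type) (p : V → Fin d → ℝ), Gen p →
    ∀ (G : SimpleGraph V) (U : Finset V), (∀ u ∈ U, ∀ v ∈ U, u ≠ v → G.Adj u v) →
    RigidOn G (↑U : Set V) p) : ∃ K : ℕ, ∀ (V : Type) [Fintype V] (G : SimpleGraph V)
    (p : V → Fin d → ℝ), Gen p →
    (∀ S : Finset V, (∀ u ∈ S, ∀ v ∈ S, ¬ G.Adj u v) → S.card ≤ a) →
    RigidOn G Set.univ p → ∀ u v : V, ∃ U : Finset V, u ∈ U ∧ v ∈ U ∧ U.card ≤ K ∧
      RigidOn G (↑U : Set V) p := by
  classical
  set s := 2 * a * d + d + 1 with hs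
  obtain ⟨R, hR⟩ := ramsey a s
  refine ⟨R + 2 * s * (s * a + 2 * (a * (d * d + d) + d * R) + 2), ?_⟩
  intro V _ G p hp hind hG u v
  -- families of pairwise unlinked cliques
  set P : Finset (Finset V) → Prop := fun F => (∀ C ∈ F, IsCl G s C) ∧
    ∀ C ∈ F, ∀ C' ∈ F, C ≠ C' → (C'.filter (fun v => Bad d G C v)).card < d with hP
  have hPe : P ∅ := ⟨by simp, by simp⟩
  obtain ⟨F, hF, hmax⟩ := (univ.filter P).exists_max_image (fun F => F.card)
    ⟨∅, by simpa using hPe⟩
  rw [mem_filter] at hF
  obtain ⟨hcl, hun⟩ := hF.2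
  have hFa : F.card ≤ a := family_le G hind s (by omega) F hcl hun
  set W : Finset V := univ.filter (fun v => ∀ C, IsCl G s C → v ∉ C) with hW
  have hWR : W.card ≤ R := by
    apply hR V G W
    · intro C hC hcC hcard
      have hne : C.Nonempty := by rw [← Finset.card_pos]; omega
      obtain ⟨w, hw⟩ := hne
      exact (mem_filter.1 (hC hw)).2 C ⟨hcard, hcC⟩ hw
    · intro S _ hS
      exact hind S hS
  -- every clique is linked to the family
  have hlink : ∀ C, IsCl G s C → ∃ C' ∈ F, RigidOn G (↑(C' ∪ C) : Set V) p := by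
    intro C hC
    by_cases hCF : C ∈ F
    · refine ⟨C, hCF, ?_⟩
      rw [union_self]
      exact hrc V p hp G C hC.2
    · by_contra hcon
      push Not at hcon
      have h1 : P (insert C F) := by
        refine ⟨?_, ?_⟩
        · intro C' hC'
          rw [mem_insert] at hC'
          rcases hC' with rfl | hC'
          · exact hC
          · exact hcl C' hC'
        · intro C1 hC1 C2 hC2 hne
          rw [mem_insert] at hC1 hC2
          by_contra hlt
          rw [not_lt] at hlt
          rcases hC1 with rfl | hC1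
          · rcases hC2 with rfl | hC2
            · exact hne rfl
            · apply hcon C2 hC2
              rw [union_comm]
              exact linked hp G (hrc V p hp G) s C1 C2 hC (hcl C2 hC2) hlt
          · rcases hC2 with rfl | hC2
            · exact hcon C1 hC1 (linked hp G (hrc V p hp G) s C1 C2 (hcl C1 hC1) hC hlt)
            · exact absurd (hun C1 hC1 C2 hC2 hne) (not_lt.2 hlt)
      have h2 := hmax (insert C F) (by simpa using h1)
      rw [card_insert_of_notMem hCF] at h2
      omega
  by_cases hFne : F.Nonempty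
  · obtain ⟨C0, hC0⟩ := hFne
    have hch : ∀ v : V, ∃ C' : {C // C ∈ F}, ∃ R : Finset V, v ∉ W →
        (v ∈ R ∧ (C' : Finset V) ⊆ R ∧ R.card ≤ 2 * s ∧ RigidOn G (↑R : Set V) p) := by
      intro v
      by_cases hv : v ∈ W
      · exact ⟨⟨C0, hC0⟩, ∅, fun h => absurd hv h⟩
      · have h1 : ∃ C, IsCl G s C ∧ v ∈ C := by
          by_contra hcon
          push Not at hcon
          exact hv (by rw [hW, mem_filter]; exact ⟨mem_univ _, hcon⟩)
        obtain ⟨C, hC, hvC⟩ := h1
        obtain ⟨C', hC', hr⟩ := hlink C hC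
        refine ⟨⟨C', hC'⟩, C' ∪ C, fun _ => ⟨mem_union_right _ hvC, subset_union_left, ?_, hr⟩⟩
        calc (C' ∪ C).card ≤ C'.card + C.card := card_union_le _ _
          _ = 2 * s := by rw [(hcl C' hC').1, hC.1]; ring
    choose f Rf hf using hch
    obtain ⟨U, hu, hv, hcard, hrig⟩ := principle hp G hG (fun i : {C // C ∈ F} => (i : Finset V))
      s (2 * s) (fun i => (hcl i i.2).1.le) W f Rf
      (by
        intro v _
        show d ≤ ((f v : {C // C ∈ F}) : Finset V).card
        rw [(hcl _ (f v).2).1]
        omega)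
      (fun v hv => hf v hv) u v
    refine ⟨U, hu, hv, hcard.trans ?_, hrig⟩
    rw [Fintype.card_coe]
    gcongr
  · rw [not_nonempty_iff_eq_empty] at hFne
    have hWu : W = univ := by
      ext w
      simp only [hW, mem_filter, mem_univ, true_and, iff_true]
      intro C hC
      obtain ⟨C', hC', _⟩ := hlink C hC
      rw [hFne] at hC'
      simp at hC'
    refine ⟨univ, mem_univ _, mem_univ _, ?_, by simpa using hG⟩
    rw [← hWu]
    omega

end Pool.Agent.H283R2.DR
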