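import Mathlib
import Pool.Agent.H283R2.DR.Defs
import Pool.Agent.H283R2.DR.Skew
import Pool.Agent.H283R2.DR.Principle
import Pool.Agent.H283R2.DR.Glue
import Pool.Agent.H283R2.DR.TaskC
import Pool.Agent.H283R2.DR.Count
import Pool.Agent.H283R2.DR.GenExists
import Pool.Agent.H283R2.DR.Family
import Pool.Agent.H283R2.DR.CountLocal
import Pool.Agent.H283R2.DR.IndepLocal

set_option autoImplicit false

/-! The general class: every independent set of more than `a` vertices contains a vertex of degree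
at least `δ`. The clique part follows task F by helper911. -/

namespace Pool.Agent.H283R2.DR

open Matrix Finset Module

open Classical in
/-- pairwise unlinked cliques inside `L` -/
theorem family_le_on {V : Type*} {d a : ℕ} (G : SimpleGraph V) (L : Finset V)
    (hind : ∀ S : Finset V, S ⊆ L → (∀ u ∈ S, ∀ v ∈ S, ¬ G.Adj u v) → S.card ≤ a)
    (s : ℕ) (hs : 2 * a * d < s)
    (F : Finset (Finset V)) (hcl : ∀ C ∈ F, IL.IsCl G s C) (hFL : ∀ C ∈ F, C ⊆ L)
    (hun : ∀ C ∈ F, ∀ C' ∈ F, C ≠ C' → (C'.filter (fun v => IL.Bad d G C v)).card < d) :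
    F.card ≤ a := by
  by_contra hcon
  push Not at hcon
  obtain ⟨F', hF', hcard⟩ := exists_subset_card_eq (show a + 1 ≤ F.card from hcon)
  obtain ⟨g, hg1, hg2, hg3⟩ := IL.choose_indep G s hs F' hcard (fun C hC => hcl C (hF' hC))
    (fun C hC C' hC' h => hun C (hF' hC) C' (hF' hC') h) F' (Finset.Subset.refl _)
  have hinj : Set.InjOn g (F' : Set (Finset V)) := by
    intro C hC C' hC' h
    by_contra hne
    have h1 := hg2 C hC C' hC' (fun h => hne h.symm)
    apply h1
    left
    rw [h]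
    exact hg1 C' hC'
  have h2 := hind (F'.image g) (by
    intro x hx
    rw [mem_image] at hx
    obtain ⟨C, hC, rfl⟩ := hx
    exact hFL C (hF' hC) (hg1 C hC)) (by
    intro u hu v hv
    rw [mem_image] at hu hv
    obtain ⟨C, hC, rfl⟩ := hu
    obtain ⟨C', hC', rfl⟩ := hv
    by_cases h : C = C'
    · subst h; exact G.irrefl
    · exact hg3 C hC C' hC' h)
  rw [card_image_of_injOn hinj, hcard] at h2
  omega

open Classical in
theorem clique_part {V : Type*} [Fintype V] {d a : ℕ} {p : V → Fin d → ℝ}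
    (hp : Gen p) (G : SimpleGraph V) (L : Finset V)
    (hind : ∀ S : Finset V, S ⊆ L → (∀ u ∈ S, ∀ v ∈ S, ¬ G.Adj u v) → S.card ≤ a)
    (s : ℕ) (hs : 2 * a * d < s) :
    ∃ F : Finset (Finset V), (∀ C ∈ F, IL.IsCl G s C ∧ C ⊆ L) ∧ F.card ≤ a ∧
      ∀ C, IL.IsCl G s C → C ⊆ L → ∃ C' ∈ F, RigidOn G (↑(C' ∪ C) : Set V) p := by
  have hrc : ∀ (U : Finset V), (∀ u ∈ U, ∀ v ∈ U, u ≠ v → G.Adj u v) →
    RigidOn G (↑U : Set V) p := fun U hU => rigid_complete hp G U hU
  set P : Finset (Finset V) → Prop := fun F => (∀ C ∈ F, IL.IsCl G s C ∧ C ⊆ L) ∧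
    ∀ C ∈ F, ∀ C' ∈ F, C ≠ C' → (C'.filter (fun v => IL.Bad d G C v)).card < d with hP
  have hPe : P ∅ := ⟨by simp, by simp⟩
  obtain ⟨F, hF, hmax⟩ := (univ.filter P).exists_max_image (fun F => F.card)
    ⟨∅, by simpa using hPe⟩
  rw [mem_filter] at hF
  obtain ⟨hcl, hun⟩ := hF.2
  have hFa : F.card ≤ a := family_le_on G L hind s hs F (fun C hC => (hcl C hC).1)
    (fun C hC => (hcl C hC).2) (fun C hC C' hC' h => hun C hC C' hC' h)
  refine ⟨F, hcl, hFa, ?_⟩
  intro C hC hCL
  by_cases hCF : C ∈ F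
  · refine ⟨C, hCF, ?_⟩
    rw [union_self]
    exact hrc C hC.2
  · by_contra hcon
    push Not at hcon
    have h1 : P (insert C F) := by
      refine ⟨?_, ?_⟩
      · intro C' hC'
        rw [mem_insert] at hC'
        rcases hC' with rfl | hC'
        · exact ⟨hC, hCL⟩
        · exact hcl C' hC'
      · intro C1 hC1 C2 hC2 hne
        rw [mem_insert] at hC1 hC2
        by_contra hlt
        rw [not_lt] at hlt
        have hlt' : d ≤ (C2.filter (fun v => IL.Bad d G C1 v)).card := hlt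
        rcases hC1 with h1 | hC1
        · rcases hC2 with h2 | hC2
          · exact hne (h1.trans h2.symm)
          · apply hcon C2 hC2
            rw [union_comm, ← h1]
            exact IL.linked hp G hrc s C1 C2 (h1 ▸ hC) (hcl C2 hC2).1 hlt'
        · rcases hC2 with h2 | hC2
          · apply hcon C1 hC1
            rw [← h2]
            exact IL.linked hp G hrc s C1 C2 (hcl C1 hC1).1 (h2 ▸ hC) hlt'
          · exact absurd (hun C1 hC1 C2 hC2 hne) (not_lt.2 hlt)
    have h2 := hmax (insert C F) (by simpa using h1)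
    rw [card_insert_of_notMem hCF] at h2
    omega

/-- the constants -/
noncomputable def genC (d a R s : ℕ) : ℝ :=
  (R + (2 * (d + 1 : ℝ) + 1) + 1) +
    12 * (d * d + d) * (2 * (d + 1 : ℝ) + 1) ^ (2 * (d + 1)) +
    (R + (2 * (d + 1 : ℝ) + 3 * (d * d + d) + 2 * s + 2) *
      (((d + 1 : ℝ) + (d * d + d) + s) * (6 * (2 * (d + 1 : ℝ) + 1) ^ (d + 1) + a) +
        2 * ((6 * (2 * (d + 1 : ℝ) + 1) ^ (d + 1) + a) * (d * d + d) + d * R) + 2))

theorem general_forward (d a : ℕ) : ∃ C : ℝ, ∀ (V : Type) [Fintype V] (G : SimpleGraph V)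
    [DecidableRel G.Adj] (p : V → Fin d → ℝ), Gen p → RigidOn G Set.univ p →
    ∀ δ : ℕ, 0 < δ → δ ≤ Fintype.card V →
    (∀ S : Finset V, (∀ u ∈ S, ∀ v ∈ S, ¬ G.Adj u v) → a < S.card → ∃ v ∈ S, δ ≤ G.degree v) →
    ∀ u v : V, ∃ U : Finset V, u ∈ U ∧ v ∈ U ∧
      (U.card : ℝ) ≤ C * ((Fintype.card V : ℝ) / δ) ^ (2 * d + 4) ∧
      RigidOn G (↑U : Set V) p := by
  classical
  set s := 2 * a * d + d + 1 with hs
  obtain ⟨R, hR⟩ := IL.ramsey a s
  refine ⟨genC d a R s, ?_⟩
  intro V _ G _ p hp hG δ hδ hδn hindep u v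
  set n := Fintype.card V with hn
  set x : ℝ := (n : ℝ) / δ with hx
  set D : ℕ := d + 1 with hD
  set M : ℕ := d * d + d with hM
  have hδ' : (0 : ℝ) < δ := by exact_mod_cast hδ
  have hnpos : 0 < n := Fintype.card_pos_iff.2 ⟨u⟩
  have hnpos' : (0 : ℝ) < n := by exact_mod_cast hnpos
  have hx1 : 1 ≤ x := by
    rw [hx, le_div_iff₀ hδ', one_mul]
    exact_mod_cast hδn
  have hxpos : 0 < x := lt_of_lt_of_le one_pos hx1
  have hnx : (n : ℝ) = x * δ := by
    rw [hx]; field_simp
  have hd0 : (0 : ℝ) ≤ d := Nat.cast_nonneg d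
  have ha0 : (0 : ℝ) ≤ a := Nat.cast_nonneg a
  have hR0 : (0 : ℝ) ≤ R := Nat.cast_nonneg R
  have hs0 : (0 : ℝ) ≤ s := Nat.cast_nonneg s
  set X : ℝ := x ^ (2 * d + 4) with hX
  have hX1 : 1 ≤ X := one_le_pow₀ hx1
  have hxX : x ≤ X := le_self_pow₀ hx1 (by omega)
  -- the three parts of the constant
  have hp1 : (0 : ℝ) ≤ R + (2 * (d + 1 : ℝ) + 1) + 1 := by positivity
  have hp2 : (0 : ℝ) ≤ 12 * (d * d + d) * (2 * (d + 1 : ℝ) + 1) ^ (2 * (d + 1)) := by
    positivity
  have hp3 : (0 : ℝ) ≤ R + (2 * (d + 1 : ℝ) + 3 * (d * d + d) + 2 * s + 2) *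
      (((d + 1 : ℝ) + (d * d + d) + s) * (6 * (2 * (d + 1 : ℝ) + 1) ^ (d + 1) + a) +
        2 * ((6 * (2 * (d + 1 : ℝ) + 1) ^ (d + 1) + a) * (d * d + d) + d * R) + 2) := by
    positivity
  by_cases hbig : genC d a R s * X < n
  swap
  · refine ⟨univ, mem_univ _, mem_univ _, ?_, ?_⟩
    · rw [Finset.card_univ]
      exact not_lt.1 hbig
    · rw [Finset.coe_univ]
      exact hG
  have hCx : ∀ c : ℝ, c ≤ genC d a R s → c * X < n := by
    intro c hc
    refine lt_of_le_of_lt ?_ hbig
    exact mul_le_mul_of_nonneg_right hc (by positivity)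
  -- low degree vertices
  set L : Finset V := univ.filter (fun v => G.degree v < δ) with hL
  have hindL : ∀ S : Finset V, S ⊆ L → (∀ u ∈ S, ∀ v ∈ S, ¬ G.Adj u v) → S.card ≤ a := by
    intro S hSL hS
    by_contra hcon
    push Not at hcon
    obtain ⟨w, hwS, hw⟩ := hindep S hS hcon
    have := hSL hwS
    rw [hL, mem_filter] at this
    omega
  obtain ⟨F2, hF2a, hF2c, hF2l⟩ := clique_part hp G L hindL s (by omega)
  set W : Finset V := L.filter (fun v => ∀ C, IL.IsCl G s C → C ⊆ L → v ∉ C) with hW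
  have hWR : W.card ≤ R := by
    apply hR V G W
    · intro C hC hcC hcard
      have hne : C.Nonempty := by rw [← Finset.card_pos]; omega
      obtain ⟨w, hw⟩ := hne
      refine (mem_filter.1 (hC hw)).2 C ⟨hcard, hcC⟩ ?_ hw
      exact hC.trans (filter_subset _ _)
    · intro S hSW hS
      exact hindL S (hSW.trans (filter_subset _ _)) hS
  have hWn : W.card < n := by
    have h1 := hCx ((R + (2 * (d + 1 : ℝ) + 1) + 1)) (by unfold genC; linarith)
    have h2 : (R : ℝ) < n := by
      have h3 : (R : ℝ) * 1 ≤ (R + (2 * (d + 1 : ℝ) + 1) + 1) * X := by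
        apply mul_le_mul _ hX1 (by norm_num) (by positivity)
        linarith
      linarith
    have h4 : R < n := by exact_mod_cast h2
    omega
  obtain ⟨v0, hv0⟩ : ∃ v0, v0 ∉ W := by
    by_contra hcon
    push Not at hcon
    have hWu : W = univ := Finset.eq_univ_iff_forall.2 hcon
    rw [hWu, Finset.card_univ] at hWn
    omega
  -- the number m
  set m : ℕ := ⌈(2 * D * n : ℝ) / δ⌉₊ with hm
  have hm1 : (m : ℝ) ≤ (2 * (D : ℝ) + 1) * x := by
    have h1 : (m : ℝ) < (2 * D * n : ℝ) / δ + 1 := by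
      apply Nat.ceil_lt_add_one
      positivity
    have h2 : (2 * D * n : ℝ) / δ = 2 * D * x := by rw [hx]; ring
    rw [h2] at h1
    linarith
  have hm2 : 2 * D * n ≤ m * δ := by
    have h1 : (2 * D * n : ℝ) / δ ≤ m := Nat.le_ceil _
    rw [div_le_iff₀ hδ'] at h1
    exact_mod_cast h1
  have hmpos : 0 < m := by
    rcases Nat.eq_zero_or_pos m with h | h
    · rw [h, zero_mul] at hm2
      have : 0 < 2 * D * n := by positivity
      omega
    · exact h
  have hm3 : m + R ≤ δ := by
    have h1 := hCx (R + (2 * (d + 1 : ℝ) + 1) + 1) (by unfold genC; linarith)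
    have h2 : (R + (2 * (d + 1 : ℝ) + 1) + 1) * x ^ 2 ≤
        (R + (2 * (d + 1 : ℝ) + 1) + 1) * X := by
      apply mul_le_mul_of_nonneg_left _ hp1
      exact pow_le_pow_right₀ hx1 (by omega)
    have h3 : (R + (2 * (d + 1 : ℝ) + 1) + 1) * x ^ 2 < x * δ := by linarith
    have h4 : (R + (2 * (d + 1 : ℝ) + 1) + 1) * x < δ := by
      have : x * ((R + (2 * (d + 1 : ℝ) + 1) + 1) * x) < x * δ := by nlinarith
      exact lt_of_mul_lt_mul_left this hxpos.le
    have h5 : ((m + R : ℕ) : ℝ) ≤ (R + (2 * (d + 1 : ℝ) + 1) + 1) * x := by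
      push_cast
      have : (D : ℝ) = d + 1 := by rw [hD]; push_cast; ring
      rw [this] at hm1
      nlinarith
    have h6 : ((m + R : ℕ) : ℝ) < δ := lt_of_le_of_lt h5 h4
    exact_mod_cast h6.le
  -- the number h
  set b : ℝ := 2 * (m : ℝ) ^ D with hb
  have hm1' : (1 : ℝ) ≤ m := by exact_mod_cast hmpos
  have hb1 : 1 ≤ b := by
    have : (1 : ℝ) ≤ (m : ℝ) ^ D := one_le_pow₀ hm1'
    linarith
  have hbpos : 0 < b := lt_of_lt_of_le one_pos hb1
  set h : ℕ := ⌈(δ : ℝ) / b⌉₊ with hh
  have hhpos : 0 < h := by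
    rw [hh, Nat.ceil_pos]
    positivity
  have hh1 : (δ : ℝ) ≤ b * h := by
    have h1 : (δ : ℝ) / b ≤ h := Nat.le_ceil _
    rw [div_le_iff₀ hbpos] at h1
    linarith
  set B : ℝ := 2 * (2 * (D : ℝ) + 1) ^ D * x ^ (D + 1) with hB
  have hB0 : 0 < B := by positivity
  have haB : x * b ≤ B := by
    have h1 : (m : ℝ) ^ D ≤ ((2 * (D : ℝ) + 1) * x) ^ D := by
      apply pow_le_pow_left₀ (Nat.cast_nonneg m) hm1
    rw [mul_pow] at h1
    have h2 : x * b = 2 * (x * (m : ℝ) ^ D) := by rw [hb]; ring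
    have h3 : B = 2 * (x * ((2 * (D : ℝ) + 1) ^ D * x ^ D)) := by rw [hB]; ring
    rw [h2, h3]
    have h4 := mul_le_mul_of_nonneg_left h1 hxpos.le
    linarith
  have hnB : (n : ℝ) ≤ B * h := by
    have h0 : (0 : ℝ) ≤ h := Nat.cast_nonneg h
    calc (n : ℝ) = x * δ := hnx
      _ ≤ x * (b * h) := mul_le_mul_of_nonneg_left hh1 hxpos.le
      _ = (x * b) * h := by ring
      _ ≤ B * h := mul_le_mul_of_nonneg_right haB h0
  have hMB : 3 * (M : ℝ) * B ^ 2 < n ∨ M = 0 := by
    by_cases hM0 : M = 0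
    · exact Or.inr hM0
    · left
      have h1 := hCx (12 * (d * d + d) * (2 * (d + 1 : ℝ) + 1) ^ (2 * (d + 1)))
        (by unfold genC; linarith)
      have h2 : 3 * (M : ℝ) * B ^ 2 = 12 * (d * d + d) * (2 * (d + 1 : ℝ) + 1) ^ (2 * (d + 1)) *
          X := by
        rw [hB, hM, hD, hX]
        push_cast
        ring
      rw [h2]
      exact h1
  have h3nM : 3 * n * M < h * h := by
    rcases hMB with hMB | hM0
    · have h1 : (n : ℝ) * n ≤ (B * h) * (B * h) :=
        mul_le_mul hnB hnB hnpos'.le (by positivity)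
      have h2 : (3 * (M : ℝ) * B ^ 2) * n < n * n :=
        mul_lt_mul_of_pos_right hMB hnpos'
      have h3 : B ^ 2 * (3 * n * M) < B ^ 2 * (h * h) := by nlinarith
      have h4 : (3 * n * M : ℝ) < h * h := lt_of_mul_lt_mul_left h3 (by positivity)
      exact_mod_cast h4
    · rw [hM0, mul_zero]
      positivity
  have hhn : h ≤ n := by
    refine le_trans ?_ hδn
    rw [hh]
    apply Nat.ceil_le.2
    rw [div_le_iff₀ hbpos]
    nlinarith
  have hMh : M ≤ h := by
    by_contra hcon
    push Not at hcon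
    have h1 : h * h ≤ n * M := Nat.mul_le_mul hhn hcon.le
    have h2 : n * M ≤ 3 * n * M := by nlinarith
    omega
  obtain ⟨F, hF1, hF2, hF3⟩ := exists_family G D M h hMh
  have hinj : Set.InjOn (nbh G) (F : Set (Finset V)) := by
    intro A hA B' hB' hAB
    by_contra hne
    have h1 := hF2 A (by exact_mod_cast hA) B' (by exact_mod_cast hB') hne
    rw [hAB, Finset.inter_self] at h1
    have h2 := (hF1 B' (by exact_mod_cast hB')).2
    omega
  have hFc : F.card * h ≤ 3 * n := by
    have h1 := card_family_lt (V := V) h M h3nM (F.image (nbh G)) (by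
      intro A hA
      obtain ⟨Z, hZ, rfl⟩ := Finset.mem_image.1 hA
      exact (hF1 Z hZ).2) (by
      intro A hA B' hB' hAB
      obtain ⟨Z, hZ, rfl⟩ := Finset.mem_image.1 hA
      obtain ⟨Z', hZ', rfl⟩ := Finset.mem_image.1 hB'
      exact hF2 Z hZ Z' hZ' (fun h => hAB (by rw [h])))
    rw [Finset.card_image_of_injOn hinj] at h1
    exact h1
  have hFB : (F.card : ℝ) ≤ 3 * B := by
    have h1 : (F.card : ℝ) * h ≤ 3 * n := by exact_mod_cast hFc
    have h2 : (F.card : ℝ) * h ≤ (3 * B) * h := by linarith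
    have h3 : (0 : ℝ) < h := by exact_mod_cast hhpos
    exact le_of_mul_le_mul_right h2 h3
  -- the bases
  have hY : ∀ Z : F, ∃ Y : Finset V, Y ⊆ nbh G Z.1 ∧ Y.card = M := by
    intro Z
    exact Finset.exists_subset_card_eq (le_trans hMh (hF1 Z.1 Z.2).2)
  choose Y hY1 hY2 using hY
  have hDZ : ∀ Z : F, Z.1.card = D := fun Z => (hF1 Z.1 Z.2).1
  let Cb : F ⊕ F2 → Finset V := Sum.elim (fun Z => Z.1 ∪ Y Z) (fun C => C.1)
  -- certificates
  have hcert : ∀ v, v ∉ W → ∃ (i : F ⊕ F2) (Rv : Finset V),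
      v ∈ Rv ∧ Cb i ⊆ Rv ∧ Rv.card ≤ 2 * D + 3 * M + 2 * s + 2 ∧
        RigidOn G (↑Rv : Set V) p := by
    intro v hv
    by_cases hvL : v ∈ L
    · -- v is in a clique in L
      have h1 : ∃ C, IL.IsCl G s C ∧ C ⊆ L ∧ v ∈ C := by
        by_contra hcon
        push Not at hcon
        exact hv (by rw [hW, mem_filter]; exact ⟨hvL, fun C h1 h2 => hcon C h1 h2⟩)
      obtain ⟨C, hC, hCL, hvC⟩ := h1
      obtain ⟨C', hC', hr⟩ := hF2l C hC hCL
      refine ⟨Sum.inr ⟨C', hC'⟩, C' ∪ C, mem_union_right _ hvC, ?_, ?_, hr⟩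
      · exact subset_union_left
      · have := card_union_le C' C
        rw [(hF2a C' hC').1.1, hC.1] at this
        omega
    · have hvdeg : δ ≤ G.degree v := by
        rw [hL, mem_filter] at hvL
        simpa using hvL
      by_cases hfew : (univ.filter (fun z => G.Adj v z ∧ G.degree z < δ)).card ≤ R
      · -- dense type
        obtain ⟨Zv, hZc, hZv, hZn⟩ := exists_common_local G δ R D m (by omega) v hfew hm3 hm2
          hvdeg
        have h2 : v ∈ nbh G Zv := by
          rw [mem_nbh]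
          exact hZv
        have hZh : h ≤ (nbh G Zv).card := by
          rw [hh]
          apply Nat.ceil_le.2
          rw [div_le_iff₀ hbpos, hb]
          have hZn' : δ ≤ 2 * m ^ D * (nbh G Zv).card := by
            unfold nbh
            convert hZn
          have h1 : (δ : ℝ) ≤ ((2 * m ^ D * (nbh G Zv).card : ℕ) : ℝ) := Nat.cast_le.2 hZn'
          push_cast at h1
          linarith
        obtain ⟨Z', hZ', hZZ⟩ := hF3 Zv hZc hZh
        obtain ⟨S, hS1, hS2⟩ := Finset.exists_subset_card_eq hZZ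
        have h3 : S ⊆ nbh G Zv := hS1.trans Finset.inter_subset_left
        have h4 : S ⊆ nbh G Z' := hS1.trans Finset.inter_subset_right
        have hr1 : RigidOn G (↑(Zv ∪ insert v S) : Set V) p := by
          refine rigid_bipartite hp G Zv (insert v S) hZc ?_ ?_
          · refine le_trans (le_of_eq hS2.symm) ?_
            exact Finset.card_le_card (Finset.subset_insert _ _)
          · intro z hz y hy
            rcases Finset.mem_insert.1 hy with rfl | hy
            · exact (mem_nbh G _ _).1 h2 z hz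
            · exact (mem_nbh G _ _).1 (h3 hy) z hz
        have hr2 : RigidOn G (↑(Z' ∪ (Y ⟨Z', hZ'⟩ ∪ S)) : Set V) p := by
          refine rigid_bipartite hp G Z' (Y ⟨Z', hZ'⟩ ∪ S) (hDZ ⟨Z', hZ'⟩) ?_ ?_
          · refine le_trans (le_of_eq hS2.symm) ?_
            exact Finset.card_le_card Finset.subset_union_right
          · intro z hz y hy
            rcases Finset.mem_union.1 hy with hy | hy
            · exact (mem_nbh G _ _).1 (hY1 ⟨Z', hZ'⟩ hy) z hz
            · exact (mem_nbh G _ _).1 (h4 hy) z hz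
        refine ⟨Sum.inl ⟨Z', hZ'⟩, (Zv ∪ insert v S) ∪ (Z' ∪ (Y ⟨Z', hZ'⟩ ∪ S)), ?_, ?_, ?_, ?_⟩
        · simp
        · intro y hy
          have hy' : y ∈ Z' ∪ Y ⟨Z', hZ'⟩ := hy
          simp only [Finset.mem_union] at hy' ⊢
          tauto
        · refine le_trans (Finset.card_union_le _ _) ?_
          have e1 : (Zv ∪ insert v S).card ≤ D + (M + 1) := by
            refine le_trans (Finset.card_union_le _ _) ?_
            rw [hZc]
            refine Nat.add_le_add_left ?_ _
            refine le_trans (Finset.card_insert_le _ _) ?_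
            rw [hS2]
          have e2 : (Z' ∪ (Y ⟨Z', hZ'⟩ ∪ S)).card ≤ D + (M + M) := by
            refine le_trans (Finset.card_union_le _ _) ?_
            rw [show Z'.card = D from hDZ ⟨Z', hZ'⟩]
            refine Nat.add_le_add_left ?_ _
            refine le_trans (Finset.card_union_le _ _) ?_
            rw [hS2, hY2]
          omega
        · refine glue hp hr1 hr2 ?_
          have : S ⊆ (Zv ∪ insert v S) ∩ (Z' ∪ (Y ⟨Z', hZ'⟩ ∪ S)) := by
            intro y hy
            simp only [Finset.mem_inter, Finset.mem_union, Finset.mem_insert]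
            tauto
          refine le_trans ?_ (Finset.card_le_card this)
          rw [hS2, hM]
          nlinarith
      · -- v has many neighbours of low degree, hence a clique
        have h1 : ∃ C, IL.IsCl G s C ∧ C ⊆ univ.filter (fun z => G.Adj v z ∧ G.degree z < δ) := by
          by_contra hcon
          push Not at hcon
          apply hfew
          apply hR V G
          · intro C hC hcC hcard
            exact hcon C ⟨hcard, hcC⟩ hC
          · intro S hS hSi
            apply hindL S _ hSi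
            intro y hy
            have := hS hy
            rw [mem_filter] at this
            rw [hL, mem_filter]
            exact ⟨mem_univ _, this.2.2⟩
        obtain ⟨C, hC, hCN⟩ := h1
        have hCL : C ⊆ L := by
          intro y hy
          have := hCN hy
          rw [mem_filter] at this
          rw [hL, mem_filter]
          exact ⟨mem_univ _, this.2.2⟩
        obtain ⟨C', hC', hr⟩ := hF2l C hC hCL
        refine ⟨Sum.inr ⟨C', hC'⟩, insert v (C' ∪ C), mem_insert_self _ _, ?_, ?_, ?_⟩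
        · intro y hy
          have hy' : y ∈ C' := hy
          simp [hy']
        · have e1 := card_union_le C' C
          rw [(hF2a C' hC').1.1, hC.1] at e1
          have e2 := card_insert_le v (C' ∪ C)
          omega
        · have hr2 := IL.extend hp G _ hr v C (by rw [hC.1]; omega) (by
            intro y hy
            simp [hy]) (by
            intro y hy
            have := hCN hy
            rw [mem_filter] at this
            exact this.2.1)
          apply IL.mono_set hr2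
          rw [coe_insert]
  obtain ⟨i0, R0, -⟩ := hcert v0 hv0
  have hcert' : ∀ v, ∃ (i : F ⊕ F2) (Rv : Finset V), v ∉ W →
      (v ∈ Rv ∧ Cb i ⊆ Rv ∧ Rv.card ≤ 2 * D + 3 * M + 2 * s + 2 ∧
        RigidOn G (↑Rv : Set V) p) := by
    intro v
    by_cases hv : v ∈ W
    · exact ⟨i0, ∅, fun h => absurd hv h⟩
    · obtain ⟨i, Rv, hi⟩ := hcert v hv
      exact ⟨i, Rv, fun _ => hi⟩
  choose f Rf hfR using hcert'
  have hCbc : ∀ i, (Cb i).card ≤ D + M + s := by
    rintro (Z | C)
    · refine le_trans (Finset.card_union_le _ _) ?_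
      rw [hDZ Z, hY2 Z]
      omega
    · change C.1.card ≤ D + M + s
      rw [(hF2a C.1 C.2).1.1]
      omega
  have hCbd : ∀ i, d ≤ (Cb i).card := by
    rintro (Z | C)
    · change d ≤ (Z.1 ∪ Y Z).card
      refine le_trans ?_ (Finset.card_le_card Finset.subset_union_left)
      rw [hDZ Z]
      omega
    · change d ≤ C.1.card
      rw [(hF2a C.1 C.2).1.1]
      omega
  obtain ⟨U, hU1, hU2, hU3, hU4⟩ := principle hp G hG Cb (D + M + s)
    (2 * D + 3 * M + 2 * s + 2) hCbc W f Rf (fun v _ => hCbd (f v)) hfR u v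
  refine ⟨U, hU1, hU2, ?_, hU4⟩
  have hcardι : Fintype.card (F ⊕ F2) = F.card + F2.card := by
    rw [Fintype.card_sum, Fintype.card_coe, Fintype.card_coe]
  rw [hcardι] at hU3
  have hU3' : (U.card : ℝ) ≤ (W.card : ℝ) + (2 * D + 3 * M + 2 * s + 2) *
      ((D + M + s) * (F.card + F2.card) +
      2 * ((F.card + F2.card) * (d * d + d) + d * W.card) + 2) := by exact_mod_cast hU3
  have hWR' : (W.card : ℝ) ≤ R := by exact_mod_cast hWR
  have hF2r : (F2.card : ℝ) ≤ a := by exact_mod_cast hF2c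
  have hBX : B ≤ 2 * (2 * (D : ℝ) + 1) ^ D * X := by
    rw [hB, hX]
    apply mul_le_mul_of_nonneg_left _ (by positivity)
    exact pow_le_pow_right₀ hx1 (by omega)
  have hDr : (D : ℝ) = d + 1 := by rw [hD]; push_cast; ring
  have hMr : (M : ℝ) = d * d + d := by rw [hM]; push_cast; ring
  rw [hDr] at hBX
  rw [hDr, hMr] at hU3'
  have hFX : (F.card : ℝ) + F2.card ≤ (6 * (2 * ((d : ℝ) + 1) + 1) ^ (d + 1) + a) * X := by
    have h1 : (a : ℝ) ≤ a * X := by nlinarith
    have h2 : (6 * (2 * ((d : ℝ) + 1) + 1) ^ (d + 1) + a) * X =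
      3 * (2 * (2 * ((d : ℝ) + 1) + 1) ^ (d + 1) * X) + a * X := by ring
    rw [h2]
    linarith
  have hWX : (W.card : ℝ) ≤ R * X := by nlinarith
  set E : ℝ := 6 * (2 * ((d : ℝ) + 1) + 1) ^ (d + 1) + a with hE
  have hE0 : 0 ≤ E := by positivity
  set T : ℝ := (F.card : ℝ) + F2.card with hT
  have e1 : ((d + 1 : ℝ) + (d * d + d) + s) * T ≤ ((d + 1 : ℝ) + (d * d + d) + s) * (E * X) :=
    mul_le_mul_of_nonneg_left hFX (by positivity)
  have e2 : T * (d * d + d) ≤ (E * X) * (d * d + d) :=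
    mul_le_mul_of_nonneg_right hFX (by positivity)
  have e3 : (d : ℝ) * W.card ≤ d * (R * X) := mul_le_mul_of_nonneg_left hWX hd0
  have e5 : ((d + 1 : ℝ) + (d * d + d) + s) * T +
    2 * (T * (d * d + d) + d * W.card) + 2 ≤
    (((d + 1 : ℝ) + (d * d + d) + s) * E + 2 * (E * (d * d + d) + d * R) + 2) * X := by
    nlinarith
  have e6 := mul_le_mul_of_nonneg_left e5
    (show (0 : ℝ) ≤ 2 * (d + 1 : ℝ) + 3 * (d * d + d) + 2 * s + 2 by positivity)
  have e4 : (U.card : ℝ) ≤ (R + (2 * (d + 1 : ℝ) + 3 * (d * d + d) + 2 * s + 2) *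
    (((d + 1 : ℝ) + (d * d + d) + s) * E + 2 * (E * (d * d + d) + d * R) + 2)) * X := by
    refine le_trans hU3' ?_
    have e7 : (R + (2 * (d + 1 : ℝ) + 3 * (d * d + d) + 2 * s + 2) *
      (((d + 1 : ℝ) + (d * d + d) + s) * E + 2 * (E * (d * d + d) + d * R) + 2)) * X =
      R * X + (2 * (d + 1 : ℝ) + 3 * (d * d + d) + 2 * s + 2) *
      ((((d + 1 : ℝ) + (d * d + d) + s) * E + 2 * (E * (d * d + d) + d * R) + 2) * X) := by
      ring
    rw [e7]
    linarith
  refine le_trans e4 ?_
  apply mul_le_mul_of_nonneg_right _ (by positivity)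
  unfold genC
  linarith

end Pool.Agent.H283R2.DR
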