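import Pool.Agent.H283R2.DR.Defs

set_option autoImplicit false

/-! Task G: the first-order sentence (helper793). -/

namespace Pool.Agent.H283R2.DR

open Matrix Finset FirstOrder

namespace SentenceAux

/-- rigidity of the pattern `(e, a)` on `Fin K`: equalities and adjacencies -/
def Good (d K : ℕ) (e a : Fin K → Fin K → Prop) : Prop :=
  ∃ P : Fin K → Fin d → ℝ, (∀ i j, e i j → P i = P j) ∧
    ∀ Q : Fin K → Fin d → ℝ, (∀ i j, e i j → Q i = Q j) →
      (∀ i j, a i j → (P i - P j) ⬝ᵥ (Q i - Q j) = 0) →
      ∃ (A : Matrix (Fin d) (Fin d) ℝ) (b : Fin d → ℝ), Aᵀ = -A ∧ ∀ i, Q i = A *ᵥ P i + b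

theorem genRigid_range_iff {V : Type*} (d K : ℕ) (G : SimpleGraph V) (x : Fin K → V) :
    GenRigid d (G.induce (Set.range x)) ↔
      Good d K (fun i j => x i = x j) (fun i j => G.Adj (x i) (x j)) := by
  rw [genRigid_induce_iff]
  have hfac : ∀ P : Fin K → Fin d → ℝ, (∀ i j, x i = x j → P i = P j) →
      ∀ i, Function.extend x P 0 (x i) = P i := fun P hP i =>
    Function.FactorsThrough.extend_apply (fun i j h => hP i j h) 0 i
  constructor
  · rintro ⟨p, hp⟩
    refine ⟨fun i => p (x i), fun i j h => congrArg p h, fun Q hQ1 hQ2 => ?_⟩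
    obtain ⟨A, b, hA, hb⟩ := hp (Function.extend x Q 0) (by
      rintro _ ⟨i, rfl⟩ _ ⟨j, rfl⟩ hij
      rw [hfac Q hQ1, hfac Q hQ1]
      exact hQ2 i j hij)
    refine ⟨A, b, hA, fun i => ?_⟩
    rw [← hfac Q hQ1 i]
    exact hb (x i) ⟨i, rfl⟩
  · rintro ⟨P, hP1, hP2⟩
    refine ⟨Function.extend x P 0, fun q hq => ?_⟩
    obtain ⟨A, b, hA, hb⟩ := hP2 (fun i => q (x i)) (fun i j h => congrArg q h) (by
      intro i j hij
      have := hq (x i) ⟨i, rfl⟩ (x j) ⟨j, rfl⟩ hij
      rwa [hfac P hP1, hfac P hP1] at this)
    refine ⟨A, b, hA, ?_⟩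
    rintro _ ⟨i, rfl⟩
    rw [hfac P hP1]
    exact hb i

theorem exists_finset_iff {V : Type*} (d K : ℕ) (G : SimpleGraph V) (u v : V) :
    (∃ U : Finset V, u ∈ U ∧ v ∈ U ∧ U.card ≤ K ∧ GenRigid d (G.induce (↑U : Set V))) ↔
      ∃ x : Fin K → V, (∃ i, u = x i) ∧ (∃ i, v = x i) ∧
        Good d K (fun i j => x i = x j) (fun i j => G.Adj (x i) (x j)) := by
  classical
  constructor
  · rintro ⟨U, hu, hv, hK, hU⟩
    have hne : Nonempty U := ⟨⟨u, hu⟩⟩
    have hcard : Fintype.card U ≤ Fintype.card (Fin K) := by simpa using hK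
    obtain ⟨f⟩ := Function.Embedding.nonempty_of_card_le hcard
    have hsurj : Function.Surjective (Function.invFun f) := Function.invFun_surjective f.injective
    refine ⟨fun i => (Function.invFun f i : U), ?_, ?_, ?_⟩
    · obtain ⟨i, hi⟩ := hsurj ⟨u, hu⟩
      exact ⟨i, by simp only [hi]⟩
    · obtain ⟨i, hi⟩ := hsurj ⟨v, hv⟩
      exact ⟨i, by simp only [hi]⟩
    · rw [← genRigid_range_iff]
      have hr : Set.range (fun i => ((Function.invFun f i : U) : V)) = (↑U : Set V) := by
        ext w
        constructor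
        · rintro ⟨i, rfl⟩
          exact (Function.invFun f i).2
        · intro hw
          obtain ⟨i, hi⟩ := hsurj ⟨w, hw⟩
          exact ⟨i, by simp only [hi]⟩
      rw [hr]
      exact hU
  · rintro ⟨x, ⟨i, hi⟩, ⟨j, hj⟩, hx⟩
    rw [← genRigid_range_iff] at hx
    refine ⟨Finset.univ.image x, ?_, ?_, ?_, ?_⟩
    · rw [hi]; exact Finset.mem_image_of_mem x (Finset.mem_univ i)
    · rw [hj]; exact Finset.mem_image_of_mem x (Finset.mem_univ j)
    · exact Finset.card_image_le.trans (by simp)
    · have hr : (↑(Finset.univ.image x) : Set V) = Set.range x := by simp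
      rw [hr]
      exact hx

/-- the variables: two universally quantified ones, `K` existentially quantified ones -/
abbrev Vars (K : ℕ) : Type := (Empty ⊕ Fin 2) ⊕ Fin K

/-- the variable `u` or `v` -/
def uv {K : ℕ} (k : Fin 2) : Language.graph.Term (Vars K) := Language.Term.var (Sum.inl (Sum.inr k))

/-- the variable `x_i` -/
def xv {K : ℕ} (i : Fin K) : Language.graph.Term (Vars K) := Language.Term.var (Sum.inr i)

/-- the variable number `k` occurs among the `x_i` -/
noncomputable def occ {K : ℕ} (k : Fin 2) : Language.graph.Formula (Vars K) :=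
  Language.Formula.iSup fun i : Fin K => (uv k).equal (xv i)

open Classical in
/-- a literal -/
noncomputable def lit {K : ℕ} (c : Prop) (φ : Language.graph.Formula (Vars K)) :
    Language.graph.Formula (Vars K) := if c then φ else φ.not

/-- the `x_i` have the given pattern -/
noncomputable def patF {K : ℕ} (s : (Fin K → Fin K → Prop) × (Fin K → Fin K → Prop)) :
    Language.graph.Formula (Vars K) :=
  Language.Formula.iInf fun ij : Fin K × Fin K =>
    lit (s.1 ij.1 ij.2) ((xv ij.1).equal (xv ij.2)) ⊓
      lit (s.2 ij.1 ij.2) (Language.adj.formula₂ (xv ij.1) (xv ij.2))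

/-- the matrix of the sentence -/
noncomputable def mat (d K : ℕ) : Language.graph.Formula (Vars K) :=
  occ 0 ⊓ (occ 1 ⊓ Language.Formula.iSup
    fun s : {s : (Fin K → Fin K → Prop) × (Fin K → Fin K → Prop) // Good d K s.1 s.2} => patF s.1)

/-- the sentence -/
noncomputable def sent (d K : ℕ) : Language.graph.Sentence :=
  Language.Formula.iAlls (Fin 2) (Language.Formula.iExs (Fin K) (mat d K))

theorem realize_lit {V : Type} [Language.graph.Structure V] {K : ℕ} (c : Prop)
    (φ : Language.graph.Formula (Vars K)) (w : Vars K → V) :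
    (lit c φ).Realize w ↔ (c ↔ φ.Realize w) := by
  classical
  unfold lit
  split_ifs with h
  · simp [h]
  · simp [h]

theorem realize_patF {V : Type} (G : SimpleGraph V) {K : ℕ}
    (s : (Fin K → Fin K → Prop) × (Fin K → Fin K → Prop)) (w : Vars K → V) :
    (@Language.Formula.Realize Language.graph V G.structure _ (patF s) w ↔
      ∀ i j, (s.1 i j ↔ w (Sum.inr i) = w (Sum.inr j)) ∧
      (s.2 i j ↔ G.Adj (w (Sum.inr i)) (w (Sum.inr j)))) := by
  let _ := G.structure
  unfold patF
  rw [Language.Formula.realize_iInf, Prod.forall]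
  refine forall_congr' fun i => forall_congr' fun j => ?_
  rw [Language.Formula.realize_inf, realize_lit, realize_lit]
  refine and_congr ?_ ?_
  · rw [Language.Formula.realize_equal]
    rfl
  · rw [Language.Formula.realize_rel₂]
    rfl

theorem realize_sent {V : Type} (G : SimpleGraph V) (d K : ℕ) :
    (@Language.Sentence.Realize Language.graph V G.structure (sent d K) ↔
      ∀ u v : V, ∃ x : Fin K → V, (∃ i, u = x i) ∧ (∃ i, v = x i) ∧
        Good d K (fun i j => x i = x j) (fun i j => G.Adj (x i) (x j))) := by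
  let _ := G.structure
  unfold sent Language.Sentence.Realize
  rw [Language.Formula.realize_iAlls]
  have h1 : ∀ y : Fin 2 → V, (Language.Formula.iExs (Fin K) (mat d K)).Realize
      (fun a => Sum.elim (default : Empty → V) y a) ↔
        ∃ x : Fin K → V, (∃ i, y 0 = x i) ∧ (∃ i, y 1 = x i) ∧
          Good d K (fun i j => x i = x j) (fun i j => G.Adj (x i) (x j)) := by
    intro y
    rw [Language.Formula.realize_iExs]
    refine exists_congr fun x => ?_
    unfold mat
    rw [Language.Formula.realize_inf, Language.Formula.realize_inf]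
    refine and_congr ?_ (and_congr ?_ ?_)
    · unfold occ
      rw [Language.Formula.realize_iSup]
      refine exists_congr fun i => ?_
      rw [Language.Formula.realize_equal]
      rfl
    · unfold occ
      rw [Language.Formula.realize_iSup]
      refine exists_congr fun i => ?_
      rw [Language.Formula.realize_equal]
      rfl
    · rw [Language.Formula.realize_iSup]
      constructor
      · rintro ⟨⟨s, hs⟩, h⟩
        rw [realize_patF] at h
        have e1 : s.1 = fun i j => x i = x j := by
          funext i j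
          exact propext (h i j).1
        have e2 : s.2 = fun i j => G.Adj (x i) (x j) := by
          funext i j
          exact propext (h i j).2
        rwa [e1, e2] at hs
      · intro h
        refine ⟨⟨(fun i j => x i = x j, fun i j => G.Adj (x i) (x j)), h⟩, ?_⟩
        rw [realize_patF]
        exact fun i j => ⟨Iff.rfl, Iff.rfl⟩
  constructor
  · intro h u v
    have := (h1 ![u, v]).1 (h ![u, v])
    simpa using this
  · intro h y
    exact (h1 y).2 (h (y 0) (y 1))

end SentenceAux

/-- Task G: the first-order sentence. -/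
theorem exists_sentence (d K : ℕ) : ∃ φ : FirstOrder.Language.graph.Sentence,
    ∀ (V : Type) [Fintype V] (G : SimpleGraph V),
      (@FirstOrder.Language.Sentence.Realize FirstOrder.Language.graph V G.structure φ ↔
        ∀ u v : V, ∃ U : Finset V, u ∈ U ∧ v ∈ U ∧ U.card ≤ K ∧
          GenRigid d (G.induce (↑U : Set V))) := by
  refine ⟨SentenceAux.sent d K, fun V _ G => ?_⟩
  rw [SentenceAux.realize_sent]
  refine forall_congr' fun u => forall_congr' fun v => ?_
  exact (SentenceAux.exists_finset_iff d K G u v).symm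

end Pool.Agent.H283R2.DR
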