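import Mathlib
import Pool.Agent.H283R2.DR.General
import Pool.Agent.H283R2.DR.TaskG

set_option autoImplicit false

/-! The general class: equivalences. -/

namespace Pool.Agent.H283R2.DR

open Matrix Finset Module

theorem local_iff (d a : ℕ) : ∃ C : ℝ, ∀ (V : Type) [Fintype V] (G : SimpleGraph V)
    [DecidableRel G.Adj] (δ : ℕ), 0 < δ → δ ≤ Fintype.card V →
    (∀ S : Finset V, G.IsIndepSet (S : Set V) → a < S.card → ∃ v ∈ S, δ ≤ G.degree v) →
    (GenRigid d G ↔ ∀ u v : V, ∃ U : Finset V, u ∈ U ∧ v ∈ U ∧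
      (U.card : ℝ) ≤ C * ((Fintype.card V : ℝ) / δ) ^ (2 * d + 4) ∧
      GenRigid d (G.induce (U : Set V))) := by
  obtain ⟨C, hC⟩ := general_forward d a
  refine ⟨C, ?_⟩
  intro V _ G _ δ hδ hδn hind
  obtain ⟨p, hp⟩ := exists_gen V d
  constructor
  · intro hG u v
    obtain ⟨U, h1, h2, h3, h4⟩ := hC V G p hp ((hp.genRigid_iff G).1 hG) δ hδ hδn (by
      intro S hS hSa
      refine hind S ?_ hSa
      intro u hu v hv _
      exact hS u (by exact_mod_cast hu) v (by exact_mod_cast hv)) u v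
    exact ⟨U, h1, h2, h3, (hp.genRigid_induce_iff G _).2 h4⟩
  · intro h
    rw [hp.genRigid_iff G]
    apply rigid_of_pairs hp
    intro u v
    obtain ⟨U, h1, h2, -, h4⟩ := h u v
    exact ⟨U, h1, h2, (hp.genRigid_induce_iff G _).1 h4⟩

theorem firstOrder_iff (d a : ℕ) (ε : ℝ) (hε : 0 < ε) :
    ∃ φ : FirstOrder.Language.graph.Sentence,
    ∀ (V : Type) [Fintype V] (G : SimpleGraph V) [DecidableRel G.Adj],
      (∀ S : Finset V, G.IsIndepSet (S : Set V) → a < S.card →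
        ∃ v ∈ S, ε * (Fintype.card V : ℝ) ≤ (G.degree v : ℝ)) →
      (@FirstOrder.Language.Sentence.Realize FirstOrder.Language.graph V G.structure φ ↔
        GenRigid d G) := by
  classical
  obtain ⟨C, hC⟩ := local_iff d a
  set e : ℝ := min ε 1 with he
  have he0 : 0 < e := lt_min hε one_pos
  have he1 : e ≤ 1 := min_le_right _ _
  set K : ℕ := ⌈|C| * (1 / e) ^ (2 * d + 4)⌉₊ with hK
  obtain ⟨φ, hφ⟩ := exists_sentence d K
  refine ⟨φ, ?_⟩
  intro V _ G _ hind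
  rw [hφ V G]
  have hback : (∀ u v : V, ∃ U : Finset V, u ∈ U ∧ v ∈ U ∧ U.card ≤ K ∧
      GenRigid d (G.induce (U : Set V))) → GenRigid d G := by
    intro h
    obtain ⟨p, hp⟩ := exists_gen V d
    rw [hp.genRigid_iff G]
    apply rigid_of_pairs hp
    intro u v
    obtain ⟨U, h1, h2, -, h4⟩ := h u v
    exact ⟨U, h1, h2, (hp.genRigid_induce_iff G _).1 h4⟩
  refine ⟨hback, ?_⟩
  intro hG u v
  have hn : 0 < Fintype.card V := Fintype.card_pos_iff.2 ⟨u⟩
  have hn' : (0 : ℝ) < Fintype.card V := by exact_mod_cast hn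
  set δ : ℕ := ⌈e * (Fintype.card V : ℝ)⌉₊ with hδ
  have hδ0 : 0 < δ := by
    rw [hδ, Nat.ceil_pos]
    positivity
  have hδ0' : (0 : ℝ) < δ := by exact_mod_cast hδ0
  have hδn : δ ≤ Fintype.card V := by
    rw [hδ]
    apply Nat.ceil_le.2
    nlinarith
  have hδe : e * (Fintype.card V : ℝ) ≤ δ := Nat.le_ceil _
  have hrat : (Fintype.card V : ℝ) / δ ≤ 1 / e := by
    rw [div_le_div_iff₀ hδ0' he0]
    linarith
  obtain ⟨U, h1, h2, h3, h4⟩ := (hC V G δ hδ0 hδn (by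
    intro S hS hSa
    obtain ⟨w, hw, hwd⟩ := hind S hS hSa
    refine ⟨w, hw, ?_⟩
    rw [hδ]
    apply Nat.ceil_le.2
    refine le_trans ?_ hwd
    exact mul_le_mul_of_nonneg_right (min_le_left _ _) hn'.le)).1 hG u v
  refine ⟨U, h1, h2, ?_, h4⟩
  have h5 : (U.card : ℝ) ≤ |C| * (1 / e) ^ (2 * d + 4) := by
    refine le_trans h3 ?_
    have h6 : ((Fintype.card V : ℝ) / δ) ^ (2 * d + 4) ≤ (1 / e) ^ (2 * d + 4) := by
      apply pow_le_pow_left₀ (by positivity) hrat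
    calc C * ((Fintype.card V : ℝ) / δ) ^ (2 * d + 4)
        ≤ |C| * ((Fintype.card V : ℝ) / δ) ^ (2 * d + 4) :=
          mul_le_mul_of_nonneg_right (le_abs_self C) (by positivity)
      _ ≤ |C| * (1 / e) ^ (2 * d + 4) := mul_le_mul_of_nonneg_left h6 (abs_nonneg C)
  have h7 : (U.card : ℝ) ≤ K := le_trans h5 (Nat.le_ceil _)
  exact_mod_cast h7

end Pool.Agent.H283R2.DR
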