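import Mathlib
import Pool.Agent.H283R2.DR.Defs
import Pool.Agent.H283R2.DR.GenExists

set_option autoImplicit false

namespace Pool.Agent.H283R2.DR

open Matrix Finset

/-- The blow-up of a graph `H` on `Fin N`: every vertex `v = (v, 0)` is completed to a clique
`{(v, 0), …, (v, D-1)}` of size `D`, and three more edges join this clique to the vertices
`(v+1, 0)` and `(v+2, 0)` (indices modulo `N`). -/
def blowup {N : ℕ} [NeZero N] (D : ℕ) (H : SimpleGraph (Fin N)) : SimpleGraph (Fin N × Fin D) :=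
  SimpleGraph.fromRel (fun x y =>
    (x.1 = y.1) ∨ (x.2.val = 0 ∧ y.2.val = 0 ∧ H.Adj x.1 y.1) ∨
      (x.2.val = 1 ∧ y.2.val = 0 ∧ (y.1 = x.1 + 1 ∨ y.1 = x.1 + 2)) ∨
      (x.2.val = 2 ∧ y.2.val = 0 ∧ y.1 = x.1 + 1))

namespace BlowupAux

theorem skew_dot {A : Matrix (Fin 3) (Fin 3) ℝ} (hA : Aᵀ = -A) (x : Fin 3 → ℝ) :
    x ⬝ᵥ (A *ᵥ x) = 0 := by
  have h1 : x ⬝ᵥ (A *ᵥ x) = x ⬝ᵥ (Aᵀ *ᵥ x) := by
    rw [Matrix.mulVec_transpose, dotProduct_comm x (x ᵥ* A), ← Matrix.dotProduct_mulVec]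
  rw [hA, Matrix.neg_mulVec, dotProduct_neg] at h1
  linarith

theorem lin_indep {V : Type*} {p : V → Fin 3 → ℝ} (hp : Gen p) (a b1 b2 b3 : V)
    (h1 : a ≠ b1) (h2 : a ≠ b2) (h3 : a ≠ b3) (h12 : b1 ≠ b2) (h13 : b1 ≠ b3) (h23 : b2 ≠ b3) :
    IsUnit (Matrix.of ![p a - p b1, p a - p b2, p a - p b3] : Matrix (Fin 3) (Fin 3) ℝ) := by
  have hinj : Function.Injective (![a, b1, b2, b3] : Fin 4 → V) := by
    intro i j hij
    have k1 := h1.symm
    have k2 := h2.symm
    have k3 := h3.symm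
    have k12 := h12.symm
    have k13 := h13.symm
    have k23 := h23.symm
    fin_cases i <;> fin_cases j <;> simp at hij ⊢ <;> contradiction
  have haff := hp.pos 4 ![a, b1, b2, b3] (by norm_num) hinj
  rw [affineIndependent_iff_linearIndependent_vsub ℝ _ (0 : Fin 4)] at haff
  have hlin := haff.comp (fun j : Fin 3 => (⟨j.succ, Fin.succ_ne_zero j⟩ : {x : Fin 4 // x ≠ 0}))
    (by
      intro i j hij
      simpa using hij)
  rw [← Matrix.linearIndependent_rows_iff_isUnit]
  have hneg := hlin.units_smul (fun _ : Fin 3 => (-1 : ℝˣ))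
  have heq : (Matrix.of ![p a - p b1, p a - p b2, p a - p b3] : Matrix (Fin 3) (Fin 3) ℝ).row =
      ((fun _ : Fin 3 => (-1 : ℝˣ)) • (fun i : {x : Fin 4 // x ≠ 0} =>
        p ((![a, b1, b2, b3] : Fin 4 → V) i) -ᵥ p ((![a, b1, b2, b3] : Fin 4 → V) 0)) ∘
          fun j : Fin 3 => (⟨j.succ, Fin.succ_ne_zero j⟩ : {x : Fin 4 // x ≠ 0})) := by
    funext j
    fin_cases j <;> funext k <;> simp [Units.smul_def, Matrix.row]
  rw [heq]
  exact hneg

theorem uniq {V : Type*} {p : V → Fin 3 → ℝ} (hp : Gen p) (a b1 b2 b3 : V)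
    (h1 : a ≠ b1) (h2 : a ≠ b2) (h3 : a ≠ b3) (h12 : b1 ≠ b2) (h13 : b1 ≠ b3) (h23 : b2 ≠ b3)
    (w : Fin 3 → ℝ) (e1 : (p a - p b1) ⬝ᵥ w = 0) (e2 : (p a - p b2) ⬝ᵥ w = 0)
    (e3 : (p a - p b3) ⬝ᵥ w = 0) : w = 0 := by
  have hu := lin_indep hp a b1 b2 b3 h1 h2 h3 h12 h13 h23
  rw [← Matrix.mulVec_injective_iff_isUnit] at hu
  apply hu
  rw [Matrix.mulVec_zero]
  funext j
  fin_cases j
  · exact e1
  · exact e2
  · exact e3

theorem solve {V : Type*} {p : V → Fin 3 → ℝ} (hp : Gen p) (a b1 b2 b3 : V)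
    (h1 : a ≠ b1) (h2 : a ≠ b2) (h3 : a ≠ b3) (h12 : b1 ≠ b2) (h13 : b1 ≠ b3) (h23 : b2 ≠ b3)
    (c1 c2 c3 : Fin 3 → ℝ) : ∃ w : Fin 3 → ℝ, (p a - p b1) ⬝ᵥ (w - c1) = 0 ∧
      (p a - p b2) ⬝ᵥ (w - c2) = 0 ∧ (p a - p b3) ⬝ᵥ (w - c3) = 0 := by
  have hu := lin_indep hp a b1 b2 b3 h1 h2 h3 h12 h13 h23
  rw [← Matrix.mulVec_surjective_iff_isUnit] at hu
  obtain ⟨w, hw⟩ := hu ![(p a - p b1) ⬝ᵥ c1, (p a - p b2) ⬝ᵥ c2, (p a - p b3) ⬝ᵥ c3]
  refine ⟨w, ?_, ?_, ?_⟩
  · have := congrFun hw 0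
    simp only [Matrix.mulVec, Matrix.of_apply, Matrix.cons_val_zero] at this
    rw [dotProduct_sub, this, sub_self]
  · have := congrFun hw 1
    simp only [Matrix.mulVec, Matrix.of_apply, Matrix.cons_val_one, Matrix.cons_val_zero] at this
    rw [dotProduct_sub, this, sub_self]
  · have := congrFun hw 2
    simp only [Matrix.mulVec, Matrix.of_apply, Matrix.cons_val] at this
    rw [dotProduct_sub, this, sub_self]

theorem swap_dot {V : Type*} {p q : V → Fin 3 → ℝ} {u v : V}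
    (h : (p u - p v) ⬝ᵥ (q u - q v) = 0) : (p v - p u) ⬝ᵥ (q v - q u) = 0 := by
  rw [← neg_sub (p u), ← neg_sub (q u), neg_dotProduct_neg]
  exact h

section

variable {N : ℕ} [NeZero N] {D : ℕ} {H : SimpleGraph (Fin N)}

theorem adj_zero (hD : 3 ≤ D) (v w : Fin N) :
    (blowup D H).Adj (v, (⟨0, by omega⟩ : Fin D)) (w, (⟨0, by omega⟩ : Fin D)) ↔ H.Adj v w := by
  unfold blowup
  rw [SimpleGraph.fromRel_adj]
  constructor
  · rintro ⟨hne, h | h⟩
    · rcases h with h | h | h | h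
      · exact absurd (by simpa using h) (fun e : v = w => hne (by rw [e]))
      · exact h.2.2
      · exact absurd h.1 (by simp)
      · exact absurd h.1 (by simp)
    · rcases h with h | h | h | h
      · exact absurd (by simpa using h) (fun e : w = v => hne (by rw [e]))
      · exact h.2.2.symm
      · exact absurd h.1 (by simp)
      · exact absurd h.1 (by simp)
  · intro h
    refine ⟨fun e => h.ne (by simpa using e), Or.inl (Or.inr (Or.inl ⟨rfl, rfl, h⟩))⟩

theorem adj_clique {v : Fin N} {i j : Fin D} (h : i ≠ j) : (blowup D H).Adj (v, i) (v, j) := by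
  unfold blowup
  rw [SimpleGraph.fromRel_adj]
  exact ⟨fun e => h (by simpa using e), Or.inl (Or.inl rfl)⟩

theorem fin_add_one_ne (hN : 3 ≤ N) (v : Fin N) : v + 1 ≠ v := by
  intro h
  have h1 : (1 : Fin N) = 0 := by
    simpa using h
  have := congrArg Fin.val h1
  rw [Fin.val_one', Fin.val_zero, Nat.mod_eq_of_lt (by omega)] at this
  omega

theorem fin_two_val (hN : 3 ≤ N) : ((2 : Fin N) : ℕ) = 2 := by
  have : (2 : Fin N) = Fin.ofNat N 2 := rfl
  rw [this]
  simp [Fin.ofNat, Nat.mod_eq_of_lt (show 2 < N by omega)]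

theorem fin_add_two_ne (hN : 3 ≤ N) (v : Fin N) : v + 2 ≠ v := by
  intro h
  have h1 : (2 : Fin N) = 0 := by
    simpa using h
  have := congrArg Fin.val h1
  rw [fin_two_val hN, Fin.val_zero] at this
  omega

theorem fin_add_one_ne_two (hN : 3 ≤ N) (v : Fin N) : v + 1 ≠ v + 2 := by
  intro h
  have h1 : (1 : Fin N) = 2 := by
    simpa using h
  have := congrArg Fin.val h1
  rw [Fin.val_one', fin_two_val hN, Nat.mod_eq_of_lt (by omega)] at this
  omega

end

end BlowupAux

open BlowupAux in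
/-- Task H: the blow-up is generically rigid in `ℝ^3` iff `H` is (the hypothesis `hcomp` is
`rigid_complete`: complete graphs are rigid). -/
theorem blowup_iff_of {N : ℕ} [NeZero N] (hN : 3 ≤ N) (D : ℕ) (hD : 3 ≤ D)
    (hcomp : ∀ {p : Fin N × Fin D → Fin 3 → ℝ} (_ : Gen p) (G : SimpleGraph (Fin N × Fin D))
      (U : Finset (Fin N × Fin D)), (∀ u ∈ U, ∀ v ∈ U, u ≠ v → G.Adj u v) →
      RigidOn G (↑U : Set (Fin N × Fin D)) p)
    (H : SimpleGraph (Fin N)) : GenRigid 3 (blowup D H) ↔ GenRigid 3 H := by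
  classical
  obtain ⟨p, hp⟩ := exists_gen (Fin N × Fin D) 3
  set G := blowup D H with hG
  obtain ⟨z0, hz0⟩ : ∃ z : Fin D, z.val = 0 := ⟨⟨0, by omega⟩, rfl⟩
  obtain ⟨z1, hz1⟩ : ∃ z : Fin D, z.val = 1 := ⟨⟨1, by omega⟩, rfl⟩
  obtain ⟨z2, hz2⟩ : ∃ z : Fin D, z.val = 2 := ⟨⟨2, by omega⟩, rfl⟩
  have hz01 : z0 ≠ z1 := fun e => by rw [e] at hz0; omega
  have hz02 : z0 ≠ z2 := fun e => by rw [e] at hz0; omega
  have hz12 : z1 ≠ z2 := fun e => by rw [e] at hz1; omega
  have hzz : z0 = (⟨0, by omega⟩ : Fin D) := Fin.ext hz0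
  have hadj0 : ∀ v w : Fin N, G.Adj (v, z0) (w, z0) ↔ H.Adj v w := by
    intro v w
    rw [hzz]
    exact adj_zero hD v w
  have hadj11 : ∀ v : Fin N, G.Adj (v, z1) (v + 1, z0) := by
    intro v
    rw [hG]
    unfold blowup
    rw [SimpleGraph.fromRel_adj]
    exact ⟨fun e => fin_add_one_ne hN v (congrArg Prod.fst e).symm,
      Or.inl (Or.inr (Or.inr (Or.inl ⟨hz1, hz0, Or.inl rfl⟩)))⟩
  have hadj12 : ∀ v : Fin N, G.Adj (v, z1) (v + 2, z0) := by
    intro v
    rw [hG]
    unfold blowup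
    rw [SimpleGraph.fromRel_adj]
    exact ⟨fun e => fin_add_two_ne hN v (congrArg Prod.fst e).symm,
      Or.inl (Or.inr (Or.inr (Or.inl ⟨hz1, hz0, Or.inr rfl⟩)))⟩
  have hadj21 : ∀ v : Fin N, G.Adj (v, z2) (v + 1, z0) := by
    intro v
    rw [hG]
    unfold blowup
    rw [SimpleGraph.fromRel_adj]
    exact ⟨fun e => fin_add_one_ne hN v (congrArg Prod.fst e).symm,
      Or.inl (Or.inr (Or.inr (Or.inr ⟨hz2, hz0, rfl⟩)))⟩
  set U : Set (Fin N × Fin D) := {x | x.2 = z0} with hU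
  -- distinctness facts
  have n1 : ∀ v : Fin N, v ≠ v + 1 := fun v => (fin_add_one_ne hN v).symm
  have n2 : ∀ v : Fin N, v ≠ v + 2 := fun v => (fin_add_two_ne hN v).symm
  have n3 : ∀ v : Fin N, v + 1 ≠ v + 2 := fun v => fin_add_one_ne_two hN v
  have key1 : GenRigid 3 H ↔ RigidOn G U p := by
    constructor
    · rintro ⟨p', hp'⟩
      refine hp.rigid G U (fun x => p' x.1) ?_
      intro q hq
      obtain ⟨A, b, hA, hb⟩ := hp' (fun v => q (v, z0)) (by
        intro u v huv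
        exact hq (u, z0) rfl (v, z0) rfl ((hadj0 u v).2 huv))
      refine ⟨A, b, hA, ?_⟩
      rintro ⟨v, i⟩ hv
      have hv' : i = z0 := hv
      subst hv'
      exact hb v
    · intro h
      refine ⟨fun v => p (v, z0), ?_⟩
      intro q hq
      obtain ⟨A, b, hA, hb⟩ := h (fun x => q x.1) (by
        rintro ⟨u, i⟩ hu ⟨v, j⟩ hv huv
        have hu' : i = z0 := hu
        have hv' : j = z0 := hv
        rw [hu', hv'] at huv ⊢
        exact hq u v ((hadj0 u v).1 huv))
      exact ⟨A, b, hA, fun v => hb (v, z0) rfl⟩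
  rw [hp.genRigid_iff, key1]
  constructor
  · -- G rigid implies H rigid
    intro hR q hq
    have hw1 : ∀ v : Fin N, ∃ w : Fin 3 → ℝ,
        (p (v, z1) - p (v, z0)) ⬝ᵥ (w - q (v, z0)) = 0 ∧
        (p (v, z1) - p (v + 1, z0)) ⬝ᵥ (w - q (v + 1, z0)) = 0 ∧
        (p (v, z1) - p (v + 2, z0)) ⬝ᵥ (w - q (v + 2, z0)) = 0 := by
      intro v
      refine solve hp (v, z1) (v, z0) (v + 1, z0) (v + 2, z0) ?_ ?_ ?_ ?_ ?_ ?_ _ _ _
      · exact fun e => hz01 (congrArg Prod.snd e).symm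
      · exact fun e => n1 v (congrArg Prod.fst e)
      · exact fun e => n2 v (congrArg Prod.fst e)
      · exact fun e => n1 v (congrArg Prod.fst e)
      · exact fun e => n2 v (congrArg Prod.fst e)
      · exact fun e => n3 v (congrArg Prod.fst e)
    choose w1 hw1a hw1b hw1c using hw1
    have hw2 : ∀ v : Fin N, ∃ w : Fin 3 → ℝ,
        (p (v, z2) - p (v, z0)) ⬝ᵥ (w - q (v, z0)) = 0 ∧
        (p (v, z2) - p (v, z1)) ⬝ᵥ (w - w1 v) = 0 ∧
        (p (v, z2) - p (v + 1, z0)) ⬝ᵥ (w - q (v + 1, z0)) = 0 := by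
      intro v
      refine solve hp (v, z2) (v, z0) (v, z1) (v + 1, z0) ?_ ?_ ?_ ?_ ?_ ?_ _ _ _
      · exact fun e => hz02 (congrArg Prod.snd e).symm
      · exact fun e => hz12 (congrArg Prod.snd e).symm
      · exact fun e => n1 v (congrArg Prod.fst e)
      · exact fun e => hz01 (congrArg Prod.snd e)
      · exact fun e => n1 v (congrArg Prod.fst e)
      · exact fun e => n1 v (congrArg Prod.fst e)
    choose w2 hw2a hw2b hw2c using hw2
    let q1 : Fin N × Fin D → Fin 3 → ℝ := fun x =>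
      if x.2 = z0 then q (x.1, z0) else if x.2 = z1 then w1 x.1 else w2 x.1
    have q10 : ∀ v, q1 (v, z0) = q (v, z0) := fun v => by simp [q1]
    have q11 : ∀ v, q1 (v, z1) = w1 v := fun v => by simp [q1, hz01.symm]
    have q12 : ∀ v, q1 (v, z2) = w2 v := fun v => by simp [q1, hz02.symm, hz12.symm]
    have htri : ∀ v : Fin N, ∃ (A : Matrix (Fin 3) (Fin 3) ℝ) (b : Fin 3 → ℝ), Aᵀ = -A ∧
        q (v, z0) = A *ᵥ p (v, z0) + b ∧ w1 v = A *ᵥ p (v, z1) + b ∧
        w2 v = A *ᵥ p (v, z2) + b := by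
      intro v
      have hc := hcomp hp G ({(v, z0), (v, z1), (v, z2)} : Finset (Fin N × Fin D)) (by
        rintro ⟨u, i⟩ hu ⟨u', j⟩ hu' hne
        have e1 : u = v := by
          simp only [Finset.mem_insert, Finset.mem_singleton, Prod.mk.injEq] at hu
          tauto
        have e2 : u' = v := by
          simp only [Finset.mem_insert, Finset.mem_singleton, Prod.mk.injEq] at hu'
          tauto
        subst e1
        rw [e2] at hne ⊢
        exact adj_clique (fun e => hne (by rw [e])))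
      obtain ⟨A, b, hA, hb⟩ := hc q1 (by
        have s01 : (p (v, z0) - p (v, z1)) ⬝ᵥ (q1 (v, z0) - q1 (v, z1)) = 0 := by
          apply swap_dot
          rw [q10, q11]
          exact hw1a v
        have s02 : (p (v, z0) - p (v, z2)) ⬝ᵥ (q1 (v, z0) - q1 (v, z2)) = 0 := by
          apply swap_dot
          rw [q10, q12]
          exact hw2a v
        have s12 : (p (v, z1) - p (v, z2)) ⬝ᵥ (q1 (v, z1) - q1 (v, z2)) = 0 := by
          apply swap_dot
          rw [q11, q12]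
          exact hw2b v
        intro x hx y hy hxy
        have hx' : x = (v, z0) ∨ x = (v, z1) ∨ x = (v, z2) := by simpa using hx
        have hy' : y = (v, z0) ∨ y = (v, z1) ∨ y = (v, z2) := by simpa using hy
        rcases hx' with rfl | rfl | rfl <;> rcases hy' with rfl | rfl | rfl
        · exact absurd rfl hxy.ne
        · exact s01
        · exact s02
        · exact swap_dot s01
        · exact absurd rfl hxy.ne
        · exact s12
        · exact swap_dot s02
        · exact swap_dot s12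
        · exact absurd rfl hxy.ne)
      refine ⟨A, b, hA, ?_, ?_, ?_⟩
      · rw [← q10]
        exact hb _ (by simp)
      · rw [← q11]
        exact hb _ (by simp)
      · rw [← q12]
        exact hb _ (by simp)
    choose A b hA ht0 ht1 ht2 using htri
    let q2 : Fin N × Fin D → Fin 3 → ℝ := fun x => A x.1 *ᵥ p x + b x.1
    have q20 : ∀ v, q2 (v, z0) = q (v, z0) := fun v => (ht0 v).symm
    have q21 : ∀ v, q2 (v, z1) = w1 v := fun v => (ht1 v).symm
    have q22 : ∀ v, q2 (v, z2) = w2 v := fun v => (ht2 v).symm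
    have hrel : ∀ x y : Fin N × Fin D, x ≠ y → ((x.1 = y.1) ∨
        (x.2.val = 0 ∧ y.2.val = 0 ∧ H.Adj x.1 y.1) ∨
        (x.2.val = 1 ∧ y.2.val = 0 ∧ (y.1 = x.1 + 1 ∨ y.1 = x.1 + 2)) ∨
        (x.2.val = 2 ∧ y.2.val = 0 ∧ y.1 = x.1 + 1)) →
        (p x - p y) ⬝ᵥ (q2 x - q2 y) = 0 := by
      rintro ⟨v, i⟩ ⟨w, j⟩ hne (h | h | h | h)
      · have e : v = w := h
        subst e
        have : q2 (v, i) - q2 (v, j) = A v *ᵥ (p (v, i) - p (v, j)) := by
          show (A v *ᵥ p (v, i) + b v) - (A v *ᵥ p (v, j) + b v) = _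
          rw [Matrix.mulVec_sub]
          abel
        rw [this]
        exact skew_dot (hA v) _
      · obtain ⟨h1, h2, h3⟩ := h
        have e1 : i = z0 := Fin.ext (h1.trans hz0.symm)
        have e2 : j = z0 := Fin.ext (h2.trans hz0.symm)
        subst e1
        rw [e2, q20, q20]
        exact hq (v, i) rfl (w, i) rfl ((hadj0 v w).2 h3)
      · obtain ⟨h1, h2, h3⟩ := h
        have e1 : i = z1 := Fin.ext (h1.trans hz1.symm)
        have e2 : j = z0 := Fin.ext (h2.trans hz0.symm)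
        rw [e1, e2, q21, q20]
        rcases h3 with h3 | h3
        · have e : w = v + 1 := h3
          rw [e]
          exact hw1b v
        · have e : w = v + 2 := h3
          rw [e]
          exact hw1c v
      · obtain ⟨h1, h2, h3⟩ := h
        have e1 : i = z2 := Fin.ext (h1.trans hz2.symm)
        have e2 : j = z0 := Fin.ext (h2.trans hz0.symm)
        rw [e1, e2, q22, q20]
        have e : w = v + 1 := h3
        rw [e]
        exact hw2c v
    obtain ⟨A', b', hA', hb'⟩ := hR q2 (by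
      intro x _ y _ hxy
      rw [hG] at hxy
      unfold blowup at hxy
      rw [SimpleGraph.fromRel_adj] at hxy
      rcases hxy with ⟨hne, h | h⟩
      · exact hrel x y hne h
      · exact swap_dot (hrel y x hne.symm h))
    refine ⟨A', b', hA', ?_⟩
    rintro ⟨v, i⟩ hv
    have hv' : i = z0 := hv
    subst hv'
    rw [← q20]
    exact hb' _ trivial
  · -- H rigid implies G rigid
    intro hR q hq
    obtain ⟨A, b, hA, hb⟩ := hR q (fun u _ v _ huv => hq u trivial v trivial huv)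
    refine ⟨A, b, hA, ?_⟩
    let r : Fin N × Fin D → Fin 3 → ℝ := fun x => q x - (A *ᵥ p x + b)
    have hr : ∀ x y, G.Adj x y → (p x - p y) ⬝ᵥ (r x - r y) = 0 := by
      intro x y hxy
      have e : r x - r y = (q x - q y) - A *ᵥ (p x - p y) := by
        show (q x - (A *ᵥ p x + b)) - (q y - (A *ᵥ p y + b)) = _
        rw [Matrix.mulVec_sub]
        abel
      rw [e, dotProduct_sub, hq x trivial y trivial hxy, skew_dot hA, sub_self]
    have r0 : ∀ v, r (v, z0) = 0 := by
      intro v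
      have := hb (v, z0) rfl
      show q (v, z0) - (A *ᵥ p (v, z0) + b) = 0
      rw [this, sub_self]
    have r1 : ∀ v, r (v, z1) = 0 := by
      intro v
      have a0 := hr (v, z1) (v, z0) (adj_clique hz01.symm)
      have a1 := hr (v, z1) (v + 1, z0) (hadj11 v)
      have a2 := hr (v, z1) (v + 2, z0) (hadj12 v)
      rw [r0, sub_zero] at a0 a1 a2
      refine uniq hp (v, z1) (v, z0) (v + 1, z0) (v + 2, z0) ?_ ?_ ?_ ?_ ?_ ?_ _ a0 a1 a2
      · exact fun e => hz01 (congrArg Prod.snd e).symm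
      · exact fun e => n1 v (congrArg Prod.fst e)
      · exact fun e => n2 v (congrArg Prod.fst e)
      · exact fun e => n1 v (congrArg Prod.fst e)
      · exact fun e => n2 v (congrArg Prod.fst e)
      · exact fun e => n3 v (congrArg Prod.fst e)
    have r2 : ∀ v, r (v, z2) = 0 := by
      intro v
      have a0 := hr (v, z2) (v, z0) (adj_clique hz02.symm)
      have a1 := hr (v, z2) (v, z1) (adj_clique hz12.symm)
      have a2 := hr (v, z2) (v + 1, z0) (hadj21 v)
      rw [r0, sub_zero] at a0 a2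
      rw [r1, sub_zero] at a1
      refine uniq hp (v, z2) (v, z0) (v, z1) (v + 1, z0) ?_ ?_ ?_ ?_ ?_ ?_ _ a0 a1 a2
      · exact fun e => hz02 (congrArg Prod.snd e).symm
      · exact fun e => hz12 (congrArg Prod.snd e).symm
      · exact fun e => n1 v (congrArg Prod.fst e)
      · exact fun e => hz01 (congrArg Prod.snd e)
      · exact fun e => n1 v (congrArg Prod.fst e)
      · exact fun e => n1 v (congrArg Prod.fst e)
    rintro ⟨v, i⟩ _
    suffices h : r (v, i) = 0 by
      have : q (v, i) - (A *ᵥ p (v, i) + b) = 0 := h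
      exact sub_eq_zero.1 this
    by_cases hi0 : i = z0
    · rw [hi0]
      exact r0 v
    by_cases hi1 : i = z1
    · rw [hi1]
      exact r1 v
    by_cases hi2 : i = z2
    · rw [hi2]
      exact r2 v
    have a0 := hr (v, i) (v, z0) (adj_clique hi0)
    have a1 := hr (v, i) (v, z1) (adj_clique hi1)
    have a2 := hr (v, i) (v, z2) (adj_clique hi2)
    rw [r0, sub_zero] at a0
    rw [r1, sub_zero] at a1
    rw [r2, sub_zero] at a2
    refine uniq hp (v, i) (v, z0) (v, z1) (v, z2) ?_ ?_ ?_ ?_ ?_ ?_ _ a0 a1 a2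
    · exact fun e => hi0 (congrArg Prod.snd e)
    · exact fun e => hi1 (congrArg Prod.snd e)
    · exact fun e => hi2 (congrArg Prod.snd e)
    · exact fun e => hz01 (congrArg Prod.snd e)
    · exact fun e => hz02 (congrArg Prod.snd e)
    · exact fun e => hz12 (congrArg Prod.snd e)

end Pool.Agent.H283R2.DR
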