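import Mathlib
import Pool.Agent.H283R2.DR.Defs

set_option autoImplicit false

/-! Stubs for the team: exact statements. Do not import this file. -/

namespace Pool.Agent.H283R2.DR

open Matrix Finset

/-- Task A: a generic placement exists. -/
theorem exists_gen (V : Type*) [Finite V] (d : ℕ) : ∃ p : V → Fin d → ℝ, Gen p := by
  sorry

/-- Task B: trivial motions are determined by `d` vertices. -/
theorem triv_unique {V : Type*} {d : ℕ} {p : V → Fin d → ℝ} (hp : Gen p) {S : Finset V}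
    (hS : d ≤ S.card) {A A' : Matrix (Fin d) (Fin d) ℝ} {b b' : Fin d → ℝ} (hA : Aᵀ = -A)
    (hA' : A'ᵀ = -A') (h : ∀ v ∈ S, A *ᵥ p v + b = A' *ᵥ p v + b') : A = A' ∧ b = b' := by
  sorry

/-- Task C1: complete bipartite graphs `K_{Z,Y}` with `|Z| = d+1`, `|Y| ≥ d^2+d` are rigid. -/
theorem rigid_bipartite {V : Type*} [DecidableEq V] {d : ℕ} {p : V → Fin d → ℝ} (hp : Gen p)
    (G : SimpleGraph V) (Z Y : Finset V) (hZ : Z.card = d + 1) (hY : d * d + d ≤ Y.card)
    (hadj : ∀ z ∈ Z, ∀ y ∈ Y, G.Adj z y) : RigidOn G (↑(Z ∪ Y) : Set V) p := by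
  sorry

/-- Task C2: complete graphs are rigid. -/
theorem rigid_complete {V : Type*} {d : ℕ} {p : V → Fin d → ℝ} (hp : Gen p)
    (G : SimpleGraph V) (U : Finset V) (hU : ∀ u ∈ U, ∀ v ∈ U, u ≠ v → G.Adj u v) :
    RigidOn G (↑U : Set V) p := by
  sorry

/-- Task D: the general principle. -/
theorem principle {V : Type*} [Fintype V] [DecidableEq V] {d : ℕ} {p : V → Fin d → ℝ}
    (hp : Gen p) (G : SimpleGraph V) (hG : RigidOn G Set.univ p)
    {ι : Type*} [Fintype ι] (C : ι → Finset V) (c s : ℕ) (hc : ∀ i, (C i).card ≤ c)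
    (W : Finset V) (f : V → ι) (R : V → Finset V)
    (hC : ∀ v, v ∉ W → d ≤ (C (f v)).card)
    (hR : ∀ v, v ∉ W → v ∈ R v ∧ C (f v) ⊆ R v ∧ (R v).card ≤ s ∧ RigidOn G (↑(R v) : Set V) p)
    (u v : V) : ∃ U : Finset V, u ∈ U ∧ v ∈ U ∧
      U.card ≤ W.card + s * (c * Fintype.card ι +
        2 * (Fintype.card ι * (d * d + d) + d * W.card) + 2) ∧
      RigidOn G (↑U : Set V) p := by
  sorry

/-- Task E1: in a graph where all but `k` vertices have degree at least `δ`, each vertex `v` of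
degree at least `δ` has a set `Z` of `D` neighbours with many common neighbours. -/
theorem exists_common {V : Type*} [Fintype V] [DecidableEq V] (G : SimpleGraph V)
    [DecidableRel G.Adj] (δ k D m : ℕ) (hD : 1 ≤ D)
    (hk : (univ.filter (fun v => G.degree v < δ)).card ≤ k)
    (hm : m + k ≤ δ) (hmδ : 2 * D * Fintype.card V ≤ m * δ) (v : V) (hv : δ ≤ G.degree v) :
    ∃ Z : Finset V, Z.card = D ∧ (∀ z ∈ Z, G.Adj z v) ∧
      δ ≤ 2 * m ^ D * (univ.filter (fun y => ∀ z ∈ Z, G.Adj z y)).card := by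
  sorry

/-- Task E2: few large sets with small pairwise intersections. -/
theorem card_family_lt {V : Type*} [Fintype V] [DecidableEq V] (h M : ℕ)
    (hM : 3 * Fintype.card V * M < h * h) (F : Finset (Finset V)) (hF : ∀ A ∈ F, h ≤ A.card)
    (hpair : ∀ A ∈ F, ∀ B ∈ F, A ≠ B → (A ∩ B).card < M) :
    F.card * h ≤ 3 * Fintype.card V := by
  sorry

/-- Task F: graphs with bounded independence number. -/
theorem indep_local (d a : ℕ) : ∃ K : ℕ, ∀ (V : Type) [Fintype V] (G : SimpleGraph V)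
    (p : V → Fin d → ℝ), Gen p →
    (∀ S : Finset V, (∀ u ∈ S, ∀ v ∈ S, ¬ G.Adj u v) → S.card ≤ a) →
    RigidOn G Set.univ p → ∀ u v : V, ∃ U : Finset V, u ∈ U ∧ v ∈ U ∧ U.card ≤ K ∧
      RigidOn G (↑U : Set V) p := by
  sorry

/-- Task G: the first-order sentence. -/
theorem exists_sentence (d K : ℕ) : ∃ φ : FirstOrder.Language.graph.Sentence,
    ∀ (V : Type) [Fintype V] (G : SimpleGraph V),
      (@FirstOrder.Language.Sentence.Realize FirstOrder.Language.graph V G.structure φ ↔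
        ∀ u v : V, ∃ U : Finset V, u ∈ U ∧ v ∈ U ∧ U.card ≤ K ∧
          GenRigid d (G.induce (↑U : Set V))) := by
  sorry

/-- The blow-up of a graph `H` on `Fin N`: every vertex `v = (v, 0)` is completed to a clique
`{(v, 0), …, (v, D-1)}` of size `D`, and three more edges join this clique to the vertices
`(v+1, 0)` and `(v+2, 0)` (indices modulo `N`). -/
def blowup {N : ℕ} [NeZero N] (D : ℕ) (H : SimpleGraph (Fin N)) : SimpleGraph (Fin N × Fin D) :=
  SimpleGraph.fromRel (fun x y =>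
    (x.1 = y.1) ∨ (x.2.val = 0 ∧ y.2.val = 0 ∧ H.Adj x.1 y.1) ∨
      (x.2.val = 1 ∧ y.2.val = 0 ∧ (y.1 = x.1 + 1 ∨ y.1 = x.1 + 2)) ∨
      (x.2.val = 2 ∧ y.2.val = 0 ∧ y.1 = x.1 + 1))

/-- Task H: the blow-up is generically rigid in `ℝ^3` iff `H` is. -/
theorem blowup_iff {N : ℕ} [NeZero N] (hN : 3 ≤ N) (D : ℕ) (hD : 3 ≤ D)
    (H : SimpleGraph (Fin N)) : GenRigid 3 (blowup D H) ↔ GenRigid 3 H := by
  sorry

end Pool.Agent.H283R2.DR
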